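import Pool.Agent.Lib.MP_42de19_nt.PointZL
import Pool.Agent.Lib.MP_42de19_nt.Sqfree
import Pool.Agent.Lib.MP_42de19_nt.Lattes

/-!
Freezing variables of a polynomial at rational values.
-/

set_option autoImplicit false

namespace Pool.Agent.Lib.MP42

open Set Topology Filter

variable {m : ℕ}

/-- The substitution of the constants `P i` for the variables `i ∈ s`. -/
noncomputable def frz (s : Finset (Fin m)) (P : Fin m → ℚ) :
    MvPolynomial (Fin m) ℚ →ₐ[ℚ] MvPolynomial (Fin m) ℚ :=
  MvPolynomial.aeval (fun i => if i ∈ s then MvPolynomial.C (P i) else MvPolynomial.X i)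

theorem aeval_frz {R : Type*} [CommRing R] [Algebra ℚ R] (s : Finset (Fin m)) (P : Fin m → ℚ)
    (D : MvPolynomial (Fin m) ℚ) (z : Fin m → R) :
    MvPolynomial.aeval z (frz s P D) =
      MvPolynomial.aeval (fun i => if i ∈ s then algebraMap ℚ R (P i) else z i) D := by
  unfold frz
  rw [MvPolynomial.comp_aeval_apply]
  congr 2
  funext i
  by_cases h : i ∈ s
  · simp [h]
  · simp [h]

theorem eval_frz (s : Finset (Fin m)) (P : Fin m → ℚ) (D : MvPolynomial (Fin m) ℚ)
    (z : Fin m → ℚ) :
    MvPolynomial.eval z (frz s P D) = MvPolynomial.eval (fun i => if i ∈ s then P i else z i) D := by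
  have := aeval_frz s P D z
  simpa only [MvPolynomial.aeval_eq_eval, Algebra.algebraMap_self, RingHom.id_apply] using this

theorem aeval_frz_one (j : Fin m) (P : Fin m → ℚ) (D : MvPolynomial (Fin m) ℚ)
    (x : Fin m → ℝ) :
    (MvPolynomial.aeval x (frz {j} P D) : ℝ) =
      MvPolynomial.aeval (Function.update x j (P j : ℝ)) D := by
  rw [aeval_frz]
  congr 2
  funext i
  by_cases h : i = j
  · subst h; simp
  · simp [h]

theorem eval_frz_one (j : Fin m) (P : Fin m → ℚ) (D : MvPolynomial (Fin m) ℚ)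
    (z : Fin m → ℚ) :
    MvPolynomial.eval z (frz {j} P D) = MvPolynomial.eval (Function.update z j (P j)) D := by
  rw [eval_frz]
  congr 2
  funext i
  by_cases h : i = j
  · subst h; simp
  · simp [h]

theorem eval_self_frz (s : Finset (Fin m)) (P : Fin m → ℚ) (D : MvPolynomial (Fin m) ℚ) :
    MvPolynomial.eval P (frz s P D) = MvPolynomial.eval P D := by
  rw [eval_frz]
  congr 2
  funext i
  split_ifs <;> rfl

theorem frz_frz (s t : Finset (Fin m)) (P : Fin m → ℚ) (D : MvPolynomial (Fin m) ℚ) :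
    frz s P (frz t P D) = frz (s ∪ t) P D := by
  apply MvPolynomial.funext
  intro z
  rw [eval_frz, eval_frz, eval_frz]
  congr 2
  funext i
  by_cases h1 : i ∈ t
  · simp [h1]
  · by_cases h2 : i ∈ s
    · simp [h1, h2]
    · simp [h1, h2]

theorem mem_vars_of_degreeOf {D : MvPolynomial (Fin m) ℚ} {i : Fin m} (h : i ∈ D.vars) :
    D.degreeOf i ≠ 0 := by
  rw [MvPolynomial.vars_def, Multiset.mem_toFinset] at h
  rw [MvPolynomial.degreeOf_def]
  exact Multiset.count_ne_zero.mpr h

/-- The value only depends on the variables which occur. -/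
theorem aeval_congr_deg {R : Type*} [CommRing R] [Algebra ℚ R] {D : MvPolynomial (Fin m) ℚ}
    {z z' : Fin m → R} (h : ∀ i, D.degreeOf i ≠ 0 → z i = z' i) :
    MvPolynomial.aeval z D = MvPolynomial.aeval z' D := by
  rw [MvPolynomial.aeval_def, MvPolynomial.aeval_def, ← MvPolynomial.coe_eval₂Hom,
    ← MvPolynomial.coe_eval₂Hom]
  exact MvPolynomial.eval₂Hom_congr' rfl (fun i hi _ => h i (mem_vars_of_degreeOf hi)) rfl

theorem eval_congr_deg {D : MvPolynomial (Fin m) ℚ} {z z' : Fin m → ℚ}
    (h : ∀ i, D.degreeOf i ≠ 0 → z i = z' i) : MvPolynomial.eval z D = MvPolynomial.eval z' D := by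
  have := aeval_congr_deg h
  simpa only [MvPolynomial.aeval_eq_eval] using this

theorem frz_eq_self {s : Finset (Fin m)} {P : Fin m → ℚ} {D : MvPolynomial (Fin m) ℚ}
    (h : ∀ i ∈ s, D.degreeOf i = 0) : frz s P D = D := by
  apply MvPolynomial.funext
  intro z
  rw [eval_frz]
  apply eval_congr_deg
  intro i hi
  rw [if_neg]
  intro his
  exact hi (h i his)

theorem degreeOf_frz_le (s : Finset (Fin m)) (P : Fin m → ℚ) (D : MvPolynomial (Fin m) ℚ)
    (i : Fin m) : (frz s P D).degreeOf i ≤ if i ∈ s then 0 else D.degreeOf i := by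
  unfold frz
  rw [MvPolynomial.aeval_def, MvPolynomial.eval₂_eq']
  refine (MvPolynomial.degreeOf_sum_le i _ _).trans ?_
  refine Finset.sup_le fun e he => ?_
  refine (MvPolynomial.degreeOf_mul_le _ _ _).trans ?_
  have h0 : MvPolynomial.degreeOf i
      ((algebraMap ℚ (MvPolynomial (Fin m) ℚ)) (MvPolynomial.coeff e D)) = 0 := by
    rw [MvPolynomial.algebraMap_eq, MvPolynomial.degreeOf_C]
  rw [h0, zero_add]
  refine (MvPolynomial.degreeOf_prod_le _ _ _).trans ?_
  have h1 : ∀ k ∈ (Finset.univ : Finset (Fin m)),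
      MvPolynomial.degreeOf i ((if k ∈ s then MvPolynomial.C (P k) else MvPolynomial.X k :
        MvPolynomial (Fin m) ℚ) ^ e k) ≤ if k = i then (if i ∈ s then 0 else e i) else 0 := by
    intro k _
    refine (MvPolynomial.degreeOf_pow_le _ _ _).trans ?_
    by_cases hk : k ∈ s
    · rw [if_pos hk, MvPolynomial.degreeOf_C, mul_zero]
      exact Nat.zero_le _
    · rw [if_neg hk, MvPolynomial.degreeOf_X]
      by_cases hki : k = i
      · subst hki
        simp [hk]
      · simp [hki, Ne.symm hki]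
  refine (Finset.sum_le_sum h1).trans ?_
  rw [Finset.sum_ite_eq' Finset.univ i (fun _ => if i ∈ s then 0 else e i)]
  simp only [Finset.mem_univ, if_true]
  split_ifs
  · exact le_rfl
  · exact MvPolynomial.le_degreeOf_of_mem_support i he

/-- The slice polynomial of a product with a factor without the variable `i`. -/
theorem tcf_mul {r h : MvPolynomial (Fin m) ℚ} {i : Fin m} (hr : r.degreeOf i = 0) :
    tcf (r * h) i = fun k => r * tcf h i k := by
  have h1 : tay r i = Polynomial.C r := by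
    have h2 : (tay r i).natDegree = 0 := Nat.le_zero.mp (tay_natDegree r i 0 hr.le)
    rw [Polynomial.eq_C_of_natDegree_eq_zero h2]
    congr 1
    exact tcf_zero r i (by rw [hr]; norm_num)
  funext k
  unfold tcf
  have h3 : tay (r * h) i = tay r i * tay h i := by
    unfold tay
    rw [map_mul]
  rw [h3, h1, Polynomial.coeff_C_mul]

theorem disc4_smul {R : Type*} [CommRing R] (c : Fin 5 → R) (l : R) :
    disc4 (fun i => l * c i) = l ^ 6 * disc4 c := by
  unfold disc4 rB rC
  ring

theorem disc_mul {r h : MvPolynomial (Fin m) ℚ} {i : Fin m} (hr : r.degreeOf i = 0) :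
    disc4 (tcf (r * h) i) = r ^ 6 * disc4 (tcf h i) := by
  rw [tcf_mul hr, disc4_smul]

theorem gpoly_mul_ne {r h : MvPolynomial (Fin m) ℚ} {i : Fin m} (hr : r.degreeOf i = 0)
    {N : ℕ} {z : Fin m → ℚ} (hz : MvPolynomial.eval z r ≠ 0)
    (hg : MvPolynomial.eval z (gpoly h i N) ≠ 0) :
    MvPolynomial.eval z (gpoly (r * h) i N) ≠ 0 := by
  unfold gpoly at hg ⊢
  rw [map_mul, map_mul, map_prod, map_prod] at hg
  have hD := left_ne_zero_of_mul hg
  have hb := left_ne_zero_of_mul (right_ne_zero_of_mul hg)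
  have hab := right_ne_zero_of_mul (right_ne_zero_of_mul hg)
  rw [Finset.prod_ne_zero_iff] at hb hab
  rw [tcf_mul hr, map_mul, map_mul (MvPolynomial.eval z) (∏ k ∈ Finset.range N, _), map_prod,
    map_prod]
  refine mul_ne_zero (by rw [map_mul]; exact mul_ne_zero hz hD) (mul_ne_zero ?_ ?_)
  · rw [Finset.prod_ne_zero_iff]
    intro k hk
    rw [dseq_smul, map_mul, map_pow]
    exact mul_ne_zero (pow_ne_zero _ hz) (hb k hk)
  · rw [Finset.prod_ne_zero_iff]
    intro j hj
    rw [map_prod, Finset.prod_ne_zero_iff]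
    intro k hk
    have h1 := hab j hj
    rw [map_prod, Finset.prod_ne_zero_iff] at h1
    have h2 := h1 k hk
    rw [dseq_smul, dseq_smul]
    simp only [map_sub, map_mul, map_pow] at h2 ⊢
    have e1 : 1 ≤ 4 ^ k := Nat.one_le_pow _ _ (by norm_num)
    have e2 : 1 ≤ 4 ^ j := Nat.one_le_pow _ _ (by norm_num)
    obtain ⟨n, hn⟩ : ∃ n, 2 * 4 ^ k = n + 2 := ⟨2 * 4 ^ k - 2, by omega⟩
    obtain ⟨n', hn'⟩ : ∃ n, 2 * 4 ^ j = n + 2 := ⟨2 * 4 ^ j - 2, by omega⟩
    rw [hn, hn']
    simp only [Nat.add_sub_cancel]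
    have h3 : MvPolynomial.eval z r ^ (n + n' + 2) ≠ 0 := pow_ne_zero _ hz
    intro h4
    apply mul_ne_zero h3 h2
    linear_combination h4

/-- the discriminant does not change under a shift -/
theorem disc4_shift {K : Type*} [Field K] [CharZero K] {c c' : Fin 5 → K} {a : K}
    (h : ∀ x, ev4 c' x = ev4 c (a + x)) : disc4 c' = disc4 c := by
  have h1 : c' = ![ev4 c a, c 1 + 2 * c 2 * a + 3 * c 3 * a ^ 2 + 4 * c 4 * a ^ 3,
      c 2 + 3 * c 3 * a + 6 * c 4 * a ^ 2, c 3 + 4 * c 4 * a, c 4] := by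
    apply ev4_inj
    intro x
    rw [h]
    simp only [ev4]
    simp
    ring
  have h2 : (27 : K) * disc4 c' = 27 * disc4 c := by
    rw [disc4_eq_IJ, disc4_eq_IJ]
    have hI : qI c' = qI c := by
      rw [h1]
      simp only [qI, rB, ev4]
      simp
      ring
    have hJ : qJ c' = qJ c := by
      rw [h1]
      simp only [qJ, rB, rC, ev4]
      simp
      ring
    rw [hI, hJ]
  exact mul_left_cancel₀ (by norm_num) h2

theorem disc_update {K : Type*} [Field K] [CharZero K] [Algebra ℚ K]
    {D : MvPolynomial (Fin m) ℚ} {i : Fin m} (hd : D.degreeOf i ≤ 4) (z : Fin m → K) (p : K) :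
    MvPolynomial.aeval (Function.update z i p) (disc4 (tcf D i)) =
      MvPolynomial.aeval z (disc4 (tcf D i)) := by
  have e1 := disc4_map (MvPolynomial.aeval z : MvPolynomial (Fin m) ℚ →ₐ[ℚ] K).toRingHom (tcf D i)
  have e2 := disc4_map (MvPolynomial.aeval (Function.update z i p) :
    MvPolynomial (Fin m) ℚ →ₐ[ℚ] K).toRingHom (tcf D i)
  have e1' : disc4 (fun k => MvPolynomial.aeval z (tcf D i k)) =
    MvPolynomial.aeval z (disc4 (tcf D i)) := e1
  have e2' : disc4 (fun k => MvPolynomial.aeval (Function.update z i p) (tcf D i k)) =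
    MvPolynomial.aeval (Function.update z i p) (disc4 (tcf D i)) := e2
  rw [← e1', ← e2']
  refine disc4_shift (a := p - z i) fun x => ?_
  rw [ev4_tcf D i hd, ev4_tcf D i hd, Function.update_self, Function.update_idem]
  have e3 : p + x = z i + (p - z i + x) := by ring
  rw [e3]

end Pool.Agent.Lib.MP42
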