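import Pool.Agent.Results.MP_42de19_nt.QuadraticFamilies
import Pool.Agent.Lib.MP_42de19_nt.Old.ProductCover

/-!
Checks: the theorem on quadratic families contains the theorem on product covers, and three
examples of admissible polynomials.
-/

set_option autoImplicit false

namespace Pool.Agent.Lib.MP42.QFCheck

open Pool.Agent.Lib.MP42

theorem vars_aeval_X {n : ℕ} (i : Fin n) (f : Polynomial ℚ) :
    (Polynomial.aeval (MvPolynomial.X i : MvPolynomial (Fin n) ℚ) f).vars ⊆ {i} := by
  classical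
  rw [Polynomial.aeval_eq_sum_range]
  refine (MvPolynomial.vars_sum_subset _ _).trans ?_
  rw [Finset.biUnion_subset]
  intro k _
  rw [MvPolynomial.smul_eq_C_mul]
  refine (MvPolynomial.vars_mul _ _).trans (Finset.union_subset ?_ ?_)
  · rw [MvPolynomial.vars_C]; exact Finset.empty_subset _
  · refine (MvPolynomial.vars_pow _ _).trans ?_
    rw [MvPolynomial.vars_X]

theorem cls_of_subset {m : ℕ} {T : Finset (Fin m)} {G : MvPolynomial (Fin m) ℚ} {t : Fin m}
    (h : ∀ i ∈ T, i ≠ t → G.degreeOf i = 0) : Cls T G := by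
  classical
  refine ⟨1, fun _ => G, by simp, fun _ _ k k' _ _ => Subsingleton.elim _ _, fun _ => ?_⟩
  intro J S hJ _ _ hJG hc
  exfalso
  have h1 : J ⊆ {t} := by
    intro j hj
    rw [Finset.mem_singleton]
    by_contra hjt
    exact MvPolynomial.mem_vars_iff_degreeOf_ne_zero.mp (hJG j hj) (h j (hJ hj) hjt)
  have h2 := Finset.card_le_card h1
  rw [Finset.card_singleton] at h2
  omega

theorem degreeOf_aeval_X {n : ℕ} (i j : Fin n) (f : Polynomial ℚ) :
    (Polynomial.aeval (MvPolynomial.X i : MvPolynomial (Fin n) ℚ) f).degreeOf j ≤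
      f.natDegree := by
  rw [Polynomial.aeval_eq_sum_range]
  refine (MvPolynomial.degreeOf_sum_le j _ _).trans ?_
  refine Finset.sup_le fun k hk => ?_
  rw [MvPolynomial.smul_eq_C_mul]
  refine (MvPolynomial.degreeOf_C_mul_le _ _ _).trans ?_
  refine (MvPolynomial.degreeOf_pow_le _ _ _).trans ?_
  have h1 : (MvPolynomial.X i : MvPolynomial (Fin n) ℚ).degreeOf j ≤ 1 := by
    classical
    rw [MvPolynomial.degreeOf_X]
    split_ifs <;> omega
  have h2 : k ≤ f.natDegree := by
    have := Finset.mem_range.mp hk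
    omega
  calc k * _ ≤ k * 1 := Nat.mul_le_mul_left _ h1
    _ ≤ f.natDegree := by omega

/-- The theorem on product covers (verbatim) is a special case. -/
theorem productCover_from (n k : ℕ) (f : Fin n → Polynomial ℚ) (hf : ∀ i, (f i).natDegree ≤ 4)
    (c : Fin k → ℚ) (S : Fin k → Finset (Fin n)) (R : Set (Fin n → ℚ))
    (hR : ∀ u ∈ R, ∀ i, ∀ l : ℚ, l ≠ 0 → Function.update u i (l ^ 2 * u i) ∈ R) :
    Semialgebraic (closure {w : Fin (n + k) → ℝ | ∃ q : Fin (n + k) → ℚ,
      (∀ j, MvPolynomial.eval q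
        (Pool.Agent.Results.MP_42de19_nt.ProductCover.productCover f c S j) = 0) ∧
      (fun i => (f i).eval (q (Fin.castAdd k i))) ∈ R ∧ ∀ i, w i = (q i : ℝ)}) := by
  classical
  set G : Fin n → MvPolynomial (Fin n) ℚ := fun i => Polynomial.aeval (MvPolynomial.X i) (f i)
    with hG
  have hval : ∀ (z : Fin n → ℚ) i, MvPolynomial.eval z (G i) = (f i).eval (z i) := by
    intro z i
    rw [hG, ← MvPolynomial.aeval_eq_eval]
    simp only
    rw [← Polynomial.aeval_algHom_apply, MvPolynomial.aeval_X, Polynomial.coe_aeval_eq_eval]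
  have hbig : bigProd G = 1 := by
    unfold bigProd
    rw [Finset.filter_false_of_mem, Finset.prod_empty]
    intro a _ h
    have h1 : (G a).vars.card ≤ 1 := by
      have := Finset.card_le_card (vars_aeval_X a (f a))
      rwa [Finset.card_singleton] at this
    omega
  have hdeg : ∀ a i, (G a).degreeOf i ≤ 4 := fun a i => (degreeOf_aeval_X a i (f a)).trans (hf a)
  have hvars : ∀ a, ∀ i ∈ (G a).vars, i = a := fun a i hi => by
    simpa using vars_aeval_X a (f a) hi
  have h := (Pool.Agent.Results.MP_42de19_nt.QuadraticFamilies.result n n k Finset.univ id G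
    hvars (fun a i hi => absurd (Finset.mem_univ i) hi) hdeg (fun a => cls_of_subset (t := a)
      (fun i _ hia => by
        by_contra hcon
        exact hia (hvars a i (MvPolynomial.mem_vars_iff_degreeOf_ne_zero.mpr hcon)))) c S).2 R hR
  have hset : {w : Fin (n + k) → ℝ | ∃ q : Fin (n + k) → ℚ,
      (∀ j, MvPolynomial.eval q
        (Pool.Agent.Results.MP_42de19_nt.ProductCover.productCover f c S j) = 0) ∧
      (fun i => (f i).eval (q (Fin.castAdd k i))) ∈ R ∧ ∀ i, w i = (q i : ℝ)} =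
      {w : Fin (n + k) → ℝ | ∃ q : Fin (n + k) → ℚ,
        (∀ j, MvPolynomial.eval q (multiCover G c S j) = 0) ∧
        (fun a => MvPolynomial.eval (fun i => q (Fin.castAdd k i)) (G a)) ∈ R ∧
        MvPolynomial.eval (fun i => q (Fin.castAdd k i)) (bigProd G) ≠ 0 ∧
        ∀ i, w i = (q i : ℝ)} := by
    ext w
    have h1 : ∀ (q : Fin (n + k) → ℚ) j, MvPolynomial.eval q
        (Pool.Agent.Results.MP_42de19_nt.ProductCover.productCover f c S j) =
        MvPolynomial.eval q (multiCover G c S j) := by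
      intro q j
      rw [Pool.Agent.Results.MP_42de19_nt.ProductCover.eval_productCover, eval_multiCover]
      simp only [hval]
    constructor
    · rintro ⟨q, hq1, hq2, hw⟩
      refine ⟨q, fun j => by rw [← h1]; exact hq1 j, ?_, by rw [hbig, map_one]; exact one_ne_zero,
        hw⟩
      simp only [hval]; exact hq2
    · rintro ⟨q, hq1, hq2, -, hw⟩
      refine ⟨q, fun j => by rw [h1]; exact hq1 j, ?_, hw⟩
      simp only [hval] at hq2; exact hq2
  rw [hset]
  exact h

/-- Double covers `y² = f(x₁, …, x_m, t)`, `y ≠ 0`. -/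
theorem two_four (m : ℕ) (f : MvPolynomial (Fin (m + 1)) ℚ)
    (h2 : ∀ i, i ≠ Fin.last m → f.degreeOf i ≤ 2) (h4 : f.degreeOf (Fin.last m) ≤ 4) :
    Semialgebraic (closure {w : Fin (m + 1 + 1) → ℝ | ∃ q : Fin (m + 1 + 1) → ℚ,
      q (Fin.last (m + 1)) ^ 2 = MvPolynomial.eval (fun i => q (Fin.castSucc i)) f ∧
      q (Fin.last (m + 1)) ≠ 0 ∧ ∀ i, w i = (q i : ℝ)}) := by
  classical
  have h := (Pool.Agent.Results.MP_42de19_nt.QuadraticFamilies.result (m + 1) 1 1
    {Fin.last m} (fun _ => 0) (fun _ => f) (fun a i _ => Subsingleton.elim _ _)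
    (fun _ i hi => h2 i (by simpa using hi)) (fun _ i => by
      by_cases hi : i = Fin.last m
      · rw [hi]; exact h4
      · exact (h2 i hi).trans (by norm_num)) (fun _ => cls_of_subset (t := Fin.last m)
      (fun i hi hit => absurd (by simpa using hi) hit)) (fun _ => 1) (fun _ => {0})).2
    {u | u 0 ≠ 0} (fun u hu a l hl => by
      have ha : a = 0 := Subsingleton.elim _ _
      subst ha
      show Function.update u 0 (l ^ 2 * u 0) 0 ≠ 0
      rw [Function.update_self]
      exact mul_ne_zero (pow_ne_zero _ hl) hu)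
  have hset : {w : Fin (m + 1 + 1) → ℝ | ∃ q : Fin (m + 1 + 1) → ℚ,
      q (Fin.last (m + 1)) ^ 2 = MvPolynomial.eval (fun i => q (Fin.castSucc i)) f ∧
      q (Fin.last (m + 1)) ≠ 0 ∧ ∀ i, w i = (q i : ℝ)} =
      {w : Fin (m + 1 + 1) → ℝ | ∃ q : Fin (m + 1 + 1) → ℚ,
        (∀ j, MvPolynomial.eval q (multiCover (fun _ : Fin 1 => f) (fun _ : Fin 1 => 1)
          (fun _ => {0}) j) = 0) ∧
        (fun _ : Fin 1 => MvPolynomial.eval (fun i => q (Fin.castAdd 1 i)) f) ∈
          {u : Fin 1 → ℚ | u 0 ≠ 0} ∧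
        MvPolynomial.eval (fun i => q (Fin.castAdd 1 i)) (bigProd (fun _ : Fin 1 => f)) ≠ 0 ∧
        ∀ i, w i = (q i : ℝ)} := by
    ext w
    have hlast : Fin.natAdd (m + 1) (0 : Fin 1) = Fin.last (m + 1) := by
      ext; simp
    have hcast : ∀ i : Fin (m + 1), Fin.castAdd 1 i = Fin.castSucc i := fun i => rfl
    have hev : ∀ (q : Fin (m + 1 + 1) → ℚ) (j : Fin 1), MvPolynomial.eval q
        (multiCover (fun _ : Fin 1 => f) (fun _ : Fin 1 => 1) (fun _ => {0}) j) =
        q (Fin.last (m + 1)) ^ 2 - MvPolynomial.eval (fun i => q (Fin.castSucc i)) f := by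
      intro q j
      have hj : j = 0 := Subsingleton.elim _ _
      subst hj
      rw [eval_multiCover, Finset.prod_singleton, one_mul, hlast]
      rfl
    constructor
    · rintro ⟨q, hq1, hq2, hw⟩
      have h5 : MvPolynomial.eval (fun i => q (Fin.castSucc i)) f ≠ 0 := by
        rw [← hq1]; exact pow_ne_zero _ hq2
      refine ⟨q, fun j => by rw [hev, hq1, sub_self], h5, ?_, hw⟩
      rw [eval_bigProd_ne]
      exact fun _ _ => h5
    · rintro ⟨q, hq1, hq2, -, hw⟩
      have h6 := hq1 0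
      rw [hev, sub_eq_zero] at h6
      refine ⟨q, h6, ?_, hw⟩
      intro h0
      apply hq2
      show MvPolynomial.eval (fun i => q (Fin.castSucc i)) f = 0
      rw [← h6, h0]; ring
  rw [hset]
  exact h

/-- Norm forms: `F = a x² + g` where `g` does not involve `x` and has few critical points. -/
theorem adm_norm {m : ℕ} {T : Finset (Fin m)} {g : MvPolynomial (Fin m) ℚ} {x : Fin m}
    (hx : x ∉ T) (hg : g.degreeOf x = 0) {a : ℚ} (ha : a ≠ 0)
    (h : ∀ J S : Finset (Fin m), J ⊆ T → S ⊆ T → Disjoint J S → 2 ≤ J.card → ∀ σ : Fin m → ℚ,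
      ∃ E : Finset ℚ, ∀ τ : Fin m → ℚ, (∀ j ∈ J, τ j ∉ E) → ∃ z : Fin m → ℚ,
        (∀ i ∈ S, z i = σ i) ∧ (∀ i ∈ J, z i = τ i) ∧
        ∃ j ∈ J, MvPolynomial.eval z (MvPolynomial.pderiv j g) ≠ 0) :
    Adm T (MvPolynomial.C a * MvPolynomial.X x ^ 2 + g) := by
  classical
  intro J S hJ hS hJS _ hc σ
  obtain ⟨E, hE⟩ := h J S hJ hS hJS hc σ
  refine ⟨E, fun τ hτ => ?_⟩
  obtain ⟨z, hzS, hzJ, j, hj, hz⟩ := hE τ hτ
  obtain ⟨u, hu⟩ : ∃ u : ℂ, u ^ 2 = -((MvPolynomial.eval z g : ℚ) : ℂ) / a :=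
    IsAlgClosed.exists_pow_nat_eq _ (by norm_num)
  have haC : (a : ℂ) ≠ 0 := by exact_mod_cast ha
  have hcast : ∀ D : MvPolynomial (Fin m) ℚ,
      (MvPolynomial.aeval (fun i => (z i : ℂ)) D : ℂ) = ((MvPolynomial.eval z D : ℚ) : ℂ) := by
    intro D
    have h := MvPolynomial.aeval_algebraMap_apply ℂ z D
    rw [MvPolynomial.aeval_eq_eval] at h
    exact h
  have hgw : (MvPolynomial.aeval (Function.update (fun i => (z i : ℂ)) x u) g : ℂ) =
      ((MvPolynomial.eval z g : ℚ) : ℂ) := by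
    rw [← hcast]
    apply aeval_congr_deg
    intro i hi
    have hix : i ≠ x := by rintro rfl; exact hi hg
    rw [Function.update_of_ne hix]
  have hjx : j ≠ x := by rintro rfl; exact hx (hJ hj)
  have hfrz : frz {x} (0 : Fin m → ℚ) g = g := frz_eq_self fun i hi => by
    rw [Finset.mem_singleton.mp hi]; exact hg
  have hdw : (MvPolynomial.aeval (Function.update (fun i => (z i : ℂ)) x u)
      (MvPolynomial.pderiv j g) : ℂ) =
      ((MvPolynomial.eval z (MvPolynomial.pderiv j g) : ℚ) : ℂ) := by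
    rw [← hcast, ← hfrz, pderiv_frz 0 (by simpa using hjx), aeval_frz, aeval_frz]
    congr 2
    funext i
    by_cases hix : i = x
    · subst hix; simp
    · simp [hix]
  refine ⟨Function.update (fun i => (z i : ℂ)) x u, fun i hi => ?_, fun i hi => ?_, ?_, j, hj, ?_⟩
  · have hix : i ≠ x := by rintro rfl; exact hx (hS hi)
    rw [Function.update_of_ne hix, hzS i hi]
  · have hix : i ≠ x := by rintro rfl; exact hx (hJ hi)
    rw [Function.update_of_ne hix, hzJ i hi]
  · rw [map_add, map_mul, map_pow, MvPolynomial.aeval_C, MvPolynomial.aeval_X,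
      Function.update_self, hu, hgw]
    have : (algebraMap ℚ ℂ) a = (a : ℂ) := rfl
    rw [this]
    field_simp
    ring
  · rw [map_add, MvPolynomial.pderiv_mul, MvPolynomial.pderiv_C, MvPolynomial.pderiv_pow,
      MvPolynomial.pderiv_X_of_ne hjx.symm, map_add, hdw]
    simp only [zero_mul, mul_zero, add_zero, map_zero, zero_add]
    exact_mod_cast hz

/-- An example: `2 x² + t⁴ + s⁴` with the quartic variables `t`, `s`. -/
theorem adm_example : Adm ({1, 2} : Finset (Fin 3))
    (MvPolynomial.C 2 * MvPolynomial.X 0 ^ 2 +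
      (MvPolynomial.X 1 ^ 4 + MvPolynomial.X 2 ^ 4)) := by
  classical
  refine adm_norm (by decide) ?_ (by norm_num) fun J S hJ hS hJS hc σ => ⟨{0}, fun τ hτ => ?_⟩
  · have h1 : (MvPolynomial.X 1 : MvPolynomial (Fin 3) ℚ).degreeOf 0 = 0 := by
      rw [MvPolynomial.degreeOf_X]; simp
    have h2 : (MvPolynomial.X 2 : MvPolynomial (Fin 3) ℚ).degreeOf 0 = 0 := by
      rw [MvPolynomial.degreeOf_X]; simp
    have h3 := MvPolynomial.degreeOf_pow_le 0 (MvPolynomial.X 1 : MvPolynomial (Fin 3) ℚ) 4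
    have h4 := MvPolynomial.degreeOf_pow_le 0 (MvPolynomial.X 2 : MvPolynomial (Fin 3) ℚ) 4
    have h7 := MvPolynomial.degreeOf_add_le 0 (MvPolynomial.X 1 ^ 4 : MvPolynomial (Fin 3) ℚ)
      (MvPolynomial.X 2 ^ 4)
    rw [h1] at h3
    rw [h2] at h4
    omega
  · have hJ2 : J = {1, 2} := Finset.eq_of_subset_of_card_le hJ (by
      have : ({1, 2} : Finset (Fin 3)).card = 2 := by decide
      omega)
    have hS0 : S = ∅ := by
      rw [hJ2] at hJS
      exact Finset.subset_empty.mp fun i hi => absurd (hS hi) (Finset.disjoint_right.mp hJS hi)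
    subst hJ2 hS0
    have ht : τ 1 ≠ 0 := by simpa using hτ 1 (by simp)
    refine ⟨τ, by simp, fun _ _ => rfl, 1, by simp, ?_⟩
    simp only [map_add, MvPolynomial.pderiv_pow, MvPolynomial.pderiv_X_self, map_mul, map_pow,
      MvPolynomial.eval_X]
    rw [MvPolynomial.pderiv_X_of_ne (by decide)]
    simp only [mul_zero, map_zero, map_one, mul_one, add_zero, map_natCast]
    norm_num
    exact ht

end Pool.Agent.Lib.MP42.QFCheck
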