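import Pool.Agent.Lib.MP_42de19_nt.Base

/-!
The class of polynomials and of covers of the theorem on quadratic families.
-/

set_option autoImplicit false

namespace Pool.Agent.Lib.MP42

variable {m : ℕ}

/-- `F` is admissible with respect to the set `T` of quartic variables: for all disjoint subsets
`J`, `S` of `T` such that `J` has at least two elements, all of which occur in `F`, and all rational
values `σ` of the variables in `S` there is a finite set `E` such that for all rational values `τ`
outside `E` of the variables in `J` there is a complex zero `w` of `F` with the values `σ`, `τ` of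
the variables in `S`, `J` at which one of the derivatives of `F` with respect to the variables in
`J` does not vanish. (No condition if `F` involves at most one variable of `T`.) -/
def Adm (T : Finset (Fin m)) (F : MvPolynomial (Fin m) ℚ) : Prop :=
  ∀ J S : Finset (Fin m), J ⊆ T → S ⊆ T → Disjoint J S → (∀ j ∈ J, j ∈ F.vars) → 2 ≤ J.card →
    ∀ σ : Fin m → ℚ, ∃ E : Finset ℚ, ∀ τ : Fin m → ℚ, (∀ j ∈ J, τ j ∉ E) →
      ∃ w : Fin m → ℂ, (∀ i ∈ S, w i = (σ i : ℂ)) ∧ (∀ i ∈ J, w i = (τ i : ℂ)) ∧
        (MvPolynomial.aeval w F : ℂ) = 0 ∧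
        ∃ j ∈ J, (MvPolynomial.aeval w (MvPolynomial.pderiv j F) : ℂ) ≠ 0

/-- `G` is a product of admissible polynomials no two of which have a quartic variable in
common. -/
def Cls (T : Finset (Fin m)) (G : MvPolynomial (Fin m) ℚ) : Prop :=
  ∃ (n : ℕ) (F : Fin n → MvPolynomial (Fin m) ℚ), G = ∏ k, F k ∧
    (∀ j ∈ T, ∀ k k', j ∈ (F k).vars → j ∈ (F k').vars → k = k') ∧ ∀ k, Adm T (F k)

/-- The polynomial `y_j² - c_j ∏_{a ∈ S_j} G_a(z)` in the `m + k` variables `z₁, …, z_m` (the first
`m` variables) and `y₁, …, y_k` (the last `k` variables). -/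
noncomputable def multiCover {m r k : ℕ} (G : Fin r → MvPolynomial (Fin m) ℚ) (c : Fin k → ℚ)
    (S : Fin k → Finset (Fin r)) (j : Fin k) : MvPolynomial (Fin (m + k)) ℚ :=
  MvPolynomial.X (Fin.natAdd m j) ^ 2 - MvPolynomial.C (c j) *
    ∏ a ∈ S j, MvPolynomial.rename (Fin.castAdd k) (G a)

/-- The product of the `G_a` that involve at least two variables. -/
noncomputable def bigProd {m r : ℕ} (G : Fin r → MvPolynomial (Fin m) ℚ) :
    MvPolynomial (Fin m) ℚ := ∏ a with 2 ≤ (G a).vars.card, G a

end Pool.Agent.Lib.MP42
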