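import Pool.Agent.Lib.MP_42de19_nt.QF.Zero
import Pool.Agent.Lib.MP_42de19_nt.Defs

/-!
From sets of rational points of affine space to the covers `y_j² = c_j ∏ G_a(z)`.
-/

set_option autoImplicit false

namespace Pool.Agent.Lib.MP42

open Set Topology Filter

theorem eval_multiCover {m r k : ℕ} (G : Fin r → MvPolynomial (Fin m) ℚ) (c : Fin k → ℚ)
    (S : Fin k → Finset (Fin r)) (j : Fin k) (q : Fin (m + k) → ℚ) :
    MvPolynomial.eval q (multiCover G c S j) = q (Fin.natAdd m j) ^ 2 -
      c j * ∏ a ∈ S j, MvPolynomial.eval (fun i => q (Fin.castAdd k i)) (G a) := by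
  unfold multiCover
  rw [map_sub, map_pow, MvPolynomial.eval_X, map_mul, MvPolynomial.eval_C, map_prod]
  congr 2
  refine Finset.prod_congr rfl fun a _ => ?_
  rw [MvPolynomial.eval_rename]
  rfl

theorem aeval_multiCover {m r k : ℕ} (G : Fin r → MvPolynomial (Fin m) ℚ) (c : Fin k → ℚ)
    (S : Fin k → Finset (Fin r)) (j : Fin k) (w : Fin (m + k) → ℝ) :
    (MvPolynomial.aeval w (multiCover G c S j) : ℝ) = w (Fin.natAdd m j) ^ 2 -
      c j * ∏ a ∈ S j, MvPolynomial.aeval (fun i => w (Fin.castAdd k i)) (G a) := by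
  unfold multiCover
  rw [map_sub, map_pow, MvPolynomial.aeval_X, map_mul, MvPolynomial.aeval_C, map_prod]
  congr 2
  refine Finset.prod_congr rfl fun a _ => ?_
  rw [MvPolynomial.aeval_rename]
  rfl

theorem eval_bigProd_ne {m r : ℕ} (G : Fin r → MvPolynomial (Fin m) ℚ) (z : Fin m → ℚ) :
    MvPolynomial.eval z (bigProd G) ≠ 0 ↔
      ∀ a, 2 ≤ (G a).vars.card → MvPolynomial.eval z (G a) ≠ 0 := by
  unfold bigProd
  rw [map_prod, Finset.prod_ne_zero_iff]
  simp

/-- the set of the rational points -/
def ratCov {m r k : ℕ} (G : Fin r → MvPolynomial (Fin m) ℚ) (c : Fin k → ℚ)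
    (S : Fin k → Finset (Fin r)) (R : Set (Fin r → ℚ)) : Set (Fin (m + k) → ℚ) :=
  {q | (∀ j, MvPolynomial.eval q (multiCover G c S j) = 0) ∧
    (fun a => MvPolynomial.eval (fun i => q (Fin.castAdd k i)) (G a)) ∈ R ∧
    MvPolynomial.eval (fun i => q (Fin.castAdd k i)) (bigProd G) ≠ 0}

theorem update_all_mem {r : ℕ} {R : Set (Fin r → ℚ)}
    (hR : ∀ u ∈ R, ∀ a, ∀ l : ℚ, l ≠ 0 → Function.update u a (l ^ 2 * u a) ∈ R)
    {u : Fin r → ℚ} (hu : u ∈ R) (l : Fin r → ℚ) (hl : ∀ a, l a ≠ 0) :
    (fun a => l a ^ 2 * u a) ∈ R := by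
  classical
  have key : ∀ s : Finset (Fin r), (fun a => if a ∈ s then l a ^ 2 * u a else u a) ∈ R := by
    intro s
    induction s using Finset.induction_on with
    | empty => simpa using hu
    | insert a s ha ih =>
      have h1 := hR _ ih a (l a) (hl a)
      have h2 : Function.update (fun a => if a ∈ s then l a ^ 2 * u a else u a) a
          (l a ^ 2 * (fun a => if a ∈ s then l a ^ 2 * u a else u a) a) =
          fun b => if b ∈ insert a s then l b ^ 2 * u b else u b := by
        funext b
        by_cases hb : b = a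
        · subst hb
          rw [Function.update_self]
          simp [ha]
        · rw [Function.update_of_ne hb]
          simp [Finset.mem_insert, hb]
      rwa [h2] at h1
  have := key Finset.univ
  simpa using this

/-- closure of a set of rational points of affine space, in the total space -/
theorem sa_ratCov {m r k : ℕ} (T : Finset (Fin m)) (b : Fin m → Fin r)
    (G : Fin r → MvPolynomial (Fin m) ℚ) (hb : ∀ a, ∀ i ∈ (G a).vars, b i = a)
    (h2 : ∀ a, ∀ i ∉ T, (G a).degreeOf i ≤ 2) (h4 : ∀ a i, (G a).degreeOf i ≤ 4)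
    (hG : ∀ a, Cls T (G a)) (c : Fin k → ℚ) (S : Fin k → Finset (Fin r)) (R : Set (Fin r → ℚ))
    (hR : ∀ u ∈ R, ∀ a, ∀ l : ℚ, l ≠ 0 → Function.update u a (l ^ 2 * u a) ∈ R) :
    SA (evR (m + k)) (closure (castSet (ratCov G c S R))) := by
  classical
  let A : Set (Fin m → ℚ) := {z | (∀ j, ∃ s : ℚ, s ^ 2 = c j * ∏ a ∈ S j,
    MvPolynomial.eval z (G a)) ∧ (fun a => MvPolynomial.eval z (G a)) ∈ R ∧
    MvPolynomial.eval z (bigProd G) ≠ 0}
  have hSA : SA (evR m) (closure (castSet A)) := by
    refine sa_closure_zero b T {a | ¬ 2 ≤ (G a).vars.card} G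
      (fun a i hi => hb a i (MvPolynomial.mem_vars_iff_degreeOf_ne_zero.mpr hi)) h2 h4 hG
      (fun a ha => ?_) A ?_ ?_
    · rw [Finset.mem_filter] at ha
      omega
    · intro z hz a ha
      rw [Finset.mem_filter, not_and, not_not] at ha
      exact (eval_bigProd_ne G z).mp hz.2.2 a (ha (Finset.mem_univ a))
    · rintro z ⟨hz1, hz2, hz3⟩ z' hrel
      choose l hl hlz using hrel
      refine ⟨fun j => ?_, ?_, ?_⟩
      · obtain ⟨s, hs⟩ := hz1 j
        refine ⟨(∏ a ∈ S j, l a) * s, ?_⟩
        rw [mul_pow, hs]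
        have : ∏ a ∈ S j, MvPolynomial.eval z' (G a) =
            (∏ a ∈ S j, l a) ^ 2 * ∏ a ∈ S j, MvPolynomial.eval z (G a) := by
          rw [← Finset.prod_pow, ← Finset.prod_mul_distrib]
          exact Finset.prod_congr rfl fun a _ => hlz a
        rw [this]; ring
      · have : (fun a => MvPolynomial.eval z' (G a)) =
            fun a => l a ^ 2 * MvPolynomial.eval z (G a) := funext hlz
        rw [this]
        exact update_all_mem hR hz2 l hl
      · rw [eval_bigProd_ne] at hz3 ⊢
        intro a ha
        rw [hlz a]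
        exact mul_ne_zero (pow_ne_zero _ (hl a)) (hz3 a ha)
  -- pull back to the total space
  have hpull : SA (evR (m + k)) ((fun w : Fin (m + k) → ℝ => fun i => w (Fin.castAdd k i)) ⁻¹'
      closure (castSet A)) := by
    refine SA.comap (ψ := fun a => MvPolynomial.rename (Fin.castAdd k) a) _ ?_ hSA
    intro a y
    rw [evR_apply, evR_apply, MvPolynomial.aeval_rename]
    rfl
  have hX : SA (evR (m + k)) {w | ∀ j, (MvPolynomial.aeval w (multiCover G c S j) : ℝ) = 0} := by
    have : {w : Fin (m + k) → ℝ | ∀ j, (MvPolynomial.aeval w (multiCover G c S j) : ℝ) = 0} =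
        ⋂ j, {w | evR (m + k) (multiCover G c S j) w = 0} := by
      ext w; simp [evR_apply]
    rw [this]
    exact SA.iInter_finite _ fun j => SA.eq_zero _
  have heq : closure (castSet (ratCov G c S R)) =
      {w | ∀ j, (MvPolynomial.aeval w (multiCover G c S j) : ℝ) = 0} ∩
      (fun w : Fin (m + k) → ℝ => fun i => w (Fin.castAdd k i)) ⁻¹' closure (castSet A) := by
    have hcont : Continuous (fun w : Fin (m + k) → ℝ => fun i : Fin m => w (Fin.castAdd k i)) := by
      fun_prop
    apply Set.Subset.antisymm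
    · refine closure_minimal ?_ ?_
      · rintro w ⟨q, ⟨hq1, hq2, hq3⟩, hw⟩
        have hwq : w = fun i => (q i : ℝ) := funext hw
        refine ⟨fun j => ?_, subset_closure ⟨fun i => q (Fin.castAdd k i),
          ⟨fun j => ?_, hq2, hq3⟩, fun i => hw _⟩⟩
        · rw [hwq, aeval_ratCast, hq1 j]; simp
        · refine ⟨q (Fin.natAdd m j), ?_⟩
          have := hq1 j
          rw [eval_multiCover] at this
          linarith
      · refine IsClosed.inter ?_ (isClosed_closure.preimage hcont)
        have : {w : Fin (m + k) → ℝ | ∀ j, (MvPolynomial.aeval w (multiCover G c S j) : ℝ) = 0} =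
            ⋂ j, {w | (MvPolynomial.aeval w (multiCover G c S j) : ℝ) = 0} := by
          ext w; simp
        rw [this]
        exact isClosed_iInter fun j => isClosed_singleton.preimage (continuous_aeval _)
    · rintro w ⟨hw1, hw2⟩
      rw [Metric.mem_closure_iff]
      intro ε hε
      -- continuity of the square roots
      let g : Fin k → (Fin m → ℝ) → ℝ := fun j x =>
        Real.sqrt (c j * ∏ a ∈ S j, MvPolynomial.aeval x (G a))
      have hg : ∀ j, Continuous (g j) := by
        intro j
        refine Real.continuous_sqrt.comp (continuous_const.mul ?_)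
        exact continuous_finsetProd _ fun a _ => continuous_aeval (G a)
      set x₀ : Fin m → ℝ := fun i => w (Fin.castAdd k i) with hx₀
      have h1 : ∀ᶠ x in 𝓝 x₀, ∀ j, |g j x - g j x₀| < ε := by
        rw [Filter.eventually_all]
        intro j
        have := Metric.tendsto_nhds.mp ((hg j).continuousAt (x := x₀)).tendsto ε hε
        simpa only [Real.dist_eq] using this
      rw [Metric.eventually_nhds_iff] at h1
      obtain ⟨δ, hδ, h1⟩ := h1
      obtain ⟨x, ⟨z, hz, hxz⟩, hd⟩ := Metric.mem_closure_iff.mp hw2 (min ε δ) (lt_min hε hδ)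
      rw [dist_comm] at hd
      have hd1 : dist x x₀ < ε := lt_of_lt_of_le hd (min_le_left _ _)
      have hd2 := h1 (lt_of_lt_of_le hd (min_le_right _ _))
      obtain ⟨hz1, hz2, hz3⟩ := hz
      choose s hs using hz1
      have hxz' : x = fun i => (z i : ℝ) := funext hxz
      have hgx : ∀ j, g j x = |(s j : ℝ)| := by
        intro j
        simp only [g]
        have : (c j : ℝ) * ∏ a ∈ S j, (MvPolynomial.aeval x (G a) : ℝ) = (s j : ℝ) ^ 2 := by
          have h2 : ((s j ^ 2 : ℚ) : ℝ) =
              ((c j * ∏ a ∈ S j, MvPolynomial.eval z (G a) : ℚ) : ℝ) := by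
            rw [hs j]
          push_cast at h2
          rw [h2]
          congr 1
          refine Finset.prod_congr rfl fun a _ => ?_
          rw [hxz', aeval_ratCast]
        rw [this, Real.sqrt_sq_eq_abs]
      have hgw : ∀ j, g j x₀ = |w (Fin.natAdd m j)| := by
        intro j
        simp only [g]
        have h2 := hw1 j
        rw [aeval_multiCover] at h2
        have h3 : (c j : ℝ) * ∏ a ∈ S j, (MvPolynomial.aeval x₀ (G a) : ℝ) =
            w (Fin.natAdd m j) ^ 2 := by
          rw [hx₀]; linarith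
        rw [h3, Real.sqrt_sq_eq_abs]
      -- choose the signs
      have hsign : ∀ j, ∃ r' : ℚ, r' ^ 2 = s j ^ 2 ∧ |(r' : ℝ) - w (Fin.natAdd m j)| < ε := by
        intro j
        have h2 := hd2 j
        rw [hgx, hgw] at h2
        rcases le_total 0 (w (Fin.natAdd m j)) with h4 | h4
        · refine ⟨|s j|, sq_abs _, ?_⟩
          push_cast
          rw [abs_of_nonneg h4] at h2
          exact h2
        · refine ⟨-|s j|, by rw [neg_sq, sq_abs], ?_⟩
          push_cast
          rw [abs_of_nonpos h4] at h2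
          rw [show -|(s j : ℝ)| - w (Fin.natAdd m j) = -(|(s j : ℝ)| - -w (Fin.natAdd m j)) by ring,
            abs_neg]
          exact h2
      choose r' hr' hr'w using hsign
      let q : Fin (m + k) → ℚ := Fin.append z r'
      have hq : (fun i => q (Fin.castAdd k i)) = z := by
        funext i; simp only [q, Fin.append_left]
      refine ⟨fun i => (q i : ℝ), ⟨q, ⟨fun j => ?_, ?_, ?_⟩, fun i => rfl⟩, ?_⟩
      · rw [eval_multiCover, hq]
        simp only [q, Fin.append_right]
        rw [hr' j, hs j]; ring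
      · rw [hq]; exact hz2
      · rw [hq]; exact hz3
      · rw [dist_comm, dist_pi_lt_iff hε]
        intro i
        refine Fin.addCases (fun i => ?_) (fun j => ?_) i
        · simp only [q, Fin.append_left]
          have := dist_le_pi_dist x x₀ i
          rw [hxz i] at this
          exact lt_of_le_of_lt this hd1
        · simp only [q, Fin.append_right]
          rw [Real.dist_eq]
          exact hr'w j
  rw [heq]
  exact hX.inter hpull

/-- removing the zero set of a polynomial: closed embedding in one more variable -/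
theorem sa_localize {n : ℕ} {A : Set (Fin n → ℚ)} (hA : SA (evR n) (closure (castSet A)))
    (g : MvPolynomial (Fin n) ℚ) (hg : ∀ z ∈ A, MvPolynomial.eval z g ≠ 0) :
    SA (evR (n + 1)) (closure (castSet {q : Fin (n + 1) → ℚ | (fun i => q (Fin.castSucc i)) ∈ A ∧
      q (Fin.last n) * MvPolynomial.eval (fun i => q (Fin.castSucc i)) g = 1})) := by
  have hpull : SA (evR (n + 1)) ((fun w : Fin (n + 1) → ℝ => fun i => w (Fin.castSucc i)) ⁻¹'
      closure (castSet A)) := by
    refine SA.comap (ψ := fun a => MvPolynomial.rename Fin.castSucc a) _ ?_ hA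
    intro a y
    rw [evR_apply, evR_apply, MvPolynomial.aeval_rename]
    rfl
  set p : MvPolynomial (Fin (n + 1)) ℚ :=
    MvPolynomial.X (Fin.last n) * MvPolynomial.rename Fin.castSucc g - 1 with hp
  have hpR : ∀ w : Fin (n + 1) → ℝ, (MvPolynomial.aeval w p : ℝ) =
      w (Fin.last n) * MvPolynomial.aeval (fun i => w (Fin.castSucc i)) g - 1 := by
    intro w
    rw [hp, map_sub, map_mul, MvPolynomial.aeval_X, MvPolynomial.aeval_rename, map_one]
    rfl
  have hX : SA (evR (n + 1)) {w | evR (n + 1) p w = 0} := SA.eq_zero _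
  have heq : closure (castSet {q : Fin (n + 1) → ℚ | (fun i => q (Fin.castSucc i)) ∈ A ∧
      q (Fin.last n) * MvPolynomial.eval (fun i => q (Fin.castSucc i)) g = 1}) =
      {w | evR (n + 1) p w = 0} ∩
      (fun w : Fin (n + 1) → ℝ => fun i => w (Fin.castSucc i)) ⁻¹' closure (castSet A) := by
    have hcont : Continuous (fun w : Fin (n + 1) → ℝ => fun i : Fin n => w (Fin.castSucc i)) := by
      fun_prop
    apply Set.Subset.antisymm
    · refine closure_minimal ?_ ?_
      · rintro w ⟨q, ⟨hq1, hq2⟩, hw⟩
        have hwq : w = fun i => (q i : ℝ) := funext hw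
        refine ⟨?_, subset_closure ⟨fun i => q (Fin.castSucc i), hq1, fun i => hw _⟩⟩
        rw [mem_ofPred_eq, evR_apply, hpR, hwq]
        have h1 : (MvPolynomial.aeval (fun i : Fin n => ((q (Fin.castSucc i) : ℚ) : ℝ)) g : ℝ) =
            ((MvPolynomial.eval (fun i => q (Fin.castSucc i)) g : ℚ) : ℝ) :=
          aeval_ratCast g (fun i => q (Fin.castSucc i))
        have h2 : ((q (Fin.last n) : ℚ) : ℝ) *
            ((MvPolynomial.eval (fun i => q (Fin.castSucc i)) g : ℚ) : ℝ) = 1 := by
          exact_mod_cast hq2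
        rw [h1, h2, sub_self]
      · refine IsClosed.inter ?_ (isClosed_closure.preimage hcont)
        have : {w : Fin (n + 1) → ℝ | evR (n + 1) p w = 0} =
            {w | (MvPolynomial.aeval w p : ℝ) = 0} := by
          ext w; rw [mem_ofPred_eq, mem_ofPred_eq, evR_apply]
        rw [this]
        exact isClosed_singleton.preimage (continuous_aeval _)
    · rintro w ⟨hw1, hw2⟩
      rw [mem_ofPred_eq, evR_apply, hpR, sub_eq_zero] at hw1
      set x₀ : Fin n → ℝ := fun i => w (Fin.castSucc i) with hx₀
      have hg0 : (MvPolynomial.aeval x₀ g : ℝ) ≠ 0 := right_ne_zero_of_mul (by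
        rw [hw1]; exact one_ne_zero)
      have hlast : w (Fin.last n) = (MvPolynomial.aeval x₀ g : ℝ)⁻¹ :=
        eq_inv_of_mul_eq_one_left hw1
      rw [Metric.mem_closure_iff]
      intro ε hε
      have h1 : ContinuousAt (fun x : Fin n → ℝ => (MvPolynomial.aeval x g : ℝ)⁻¹) x₀ :=
        (continuous_aeval g).continuousAt.inv₀ hg0
      obtain ⟨δ, hδ, h1⟩ := Metric.continuousAt_iff.mp h1 ε hε
      obtain ⟨x, ⟨z, hz, hxz⟩, hd⟩ := Metric.mem_closure_iff.mp hw2 (min ε δ) (lt_min hε hδ)
      rw [dist_comm] at hd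
      have hd1 : dist x x₀ < ε := lt_of_lt_of_le hd (min_le_left _ _)
      have hd2 := h1 (lt_of_lt_of_le hd (min_le_right _ _))
      have hxz' : x = fun i => (z i : ℝ) := funext hxz
      let q : Fin (n + 1) → ℚ := Fin.snoc z (MvPolynomial.eval z g)⁻¹
      have hq : (fun i => q (Fin.castSucc i)) = z := by
        funext i; simp only [q, Fin.snoc_castSucc]
      have hql : q (Fin.last n) = (MvPolynomial.eval z g)⁻¹ := by
        simp only [q, Fin.snoc_last]
      refine ⟨fun i => (q i : ℝ), ⟨q, ⟨by rw [hq]; exact hz, ?_⟩, fun i => rfl⟩, ?_⟩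
      · rw [hq, hql]; exact inv_mul_cancel₀ (hg z hz)
      · rw [dist_comm, dist_pi_lt_iff hε]
        intro i
        refine Fin.lastCases ?_ (fun i => ?_) i
        · rw [hlast]
          simp only [hql]
          rw [hxz', aeval_ratCast] at hd2
          push_cast
          exact hd2
        · have h3 : q (Fin.castSucc i) = z i := congrFun hq i
          simp only [h3]
          have := dist_le_pi_dist x x₀ i
          rw [hxz i] at this
          exact lt_of_le_of_lt this hd1
  rw [heq]
  exact hX.inter hpull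

end Pool.Agent.Lib.MP42
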