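import Pool.Agent.Lib.MP_42de19_nt.QF.Step

/-!
The doubling polynomials near a simple zero.
-/

set_option autoImplicit false

namespace Pool.Agent.Lib.MP42

open Set Topology Filter

variable {m : ℕ}

theorem tay_coeff_zero (D : MvPolynomial (Fin m) ℚ) (i : Fin m) : (tay D i).coeff 0 = D := by
  unfold tay
  induction D using MvPolynomial.induction_on with
  | C a =>
    rw [MvPolynomial.aeval_C, IsScalarTower.algebraMap_apply ℚ
      (MvPolynomial (Fin m) ℚ) (Polynomial (MvPolynomial (Fin m) ℚ)), Polynomial.algebraMap_apply,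
      Algebra.algebraMap_self, RingHom.id_apply, Polynomial.coeff_C_zero]
    rfl
  | add p q hp hq => rw [map_add, Polynomial.coeff_add, hp, hq]
  | mul_X p j hp =>
    rw [map_mul, Polynomial.mul_coeff_zero, hp, MvPolynomial.aeval_X]
    congr 1
    by_cases hj : j = i
    · subst hj; simp
    · simp [hj]

theorem tay_coeff_one (D : MvPolynomial (Fin m) ℚ) (i : Fin m) :
    (tay D i).coeff 1 = MvPolynomial.pderiv i D := by
  induction D using MvPolynomial.induction_on with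
  | C a =>
    have : tay (MvPolynomial.C a : MvPolynomial (Fin m) ℚ) i = Polynomial.C (MvPolynomial.C a) := by
      unfold tay
      rw [MvPolynomial.aeval_C, IsScalarTower.algebraMap_apply ℚ
        (MvPolynomial (Fin m) ℚ) (Polynomial (MvPolynomial (Fin m) ℚ)), Polynomial.algebraMap_apply,
        Algebra.algebraMap_self, RingHom.id_apply]
      rfl
    rw [this, Polynomial.coeff_C, if_neg one_ne_zero, MvPolynomial.pderiv_C]
  | add p q hp hq =>
    have : tay (p + q) i = tay p i + tay q i := by unfold tay; rw [map_add]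
    rw [this, Polynomial.coeff_add, hp, hq, map_add]
  | mul_X p j hp =>
    have : tay (p * MvPolynomial.X j) i = tay p i * tay (MvPolynomial.X j) i := by
      unfold tay; rw [map_mul]
    rw [this, Polynomial.mul_coeff_one, hp, tay_coeff_zero, tay_coeff_zero,
      MvPolynomial.pderiv_mul]
    have h1 : (tay (MvPolynomial.X j : MvPolynomial (Fin m) ℚ) i).coeff 1 =
        MvPolynomial.pderiv i (MvPolynomial.X j) := by
      unfold tay
      rw [MvPolynomial.aeval_X, MvPolynomial.pderiv_X]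
      by_cases hj : j = i
      · subst hj; simp [Polynomial.coeff_X, Polynomial.coeff_C]
      · simp [hj, Polynomial.coeff_C, Pi.single_apply, Ne.symm hj]
    rw [h1]
    ring

/-- the second factor of `gpoly` -/
noncomputable def gcof (D : MvPolynomial (Fin m) ℚ) (i : Fin m) (N : ℕ) :
    MvPolynomial (Fin m) ℚ :=
  (∏ k ∈ Finset.range N, (dseq (tcf D i) k).2) *
    ∏ j ∈ Finset.range N, ∏ k ∈ Finset.range j,
      ((dseq (tcf D i) j).1 * (dseq (tcf D i) k).2 -
        (dseq (tcf D i) k).1 * (dseq (tcf D i) j).2)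

theorem gpoly_eq (D : MvPolynomial (Fin m) ℚ) (i : Fin m) (N : ℕ) :
    gpoly D i N = D * gcof D i N := rfl

theorem gcof_ne {D : MvPolynomial (Fin m) ℚ} {i : Fin m} {w : Fin m → ℂ}
    (hw0 : (MvPolynomial.aeval w (tcf D i 0) : ℂ) = 0)
    (hw1 : (MvPolynomial.aeval w (tcf D i 1) : ℂ) ≠ 0) (N : ℕ) :
    (MvPolynomial.aeval w (gcof D i N) : ℂ) ≠ 0 := by
  let φ := (MvPolynomial.aeval w : MvPolynomial (Fin m) ℚ →ₐ[ℚ] ℂ).toRingHom
  have hmap : ∀ k, (φ (dseq (tcf D i) k).1, φ (dseq (tcf D i) k).2) =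
      (((MvPolynomial.aeval w (tcf D i 1) : ℂ)) ^ (2 * 4 ^ k),
        4 ^ (k + 1) * (MvPolynomial.aeval w (tcf D i 1) : ℂ) ^ (2 * 4 ^ k - 2)) := by
    intro k
    rw [← dseq_map φ (tcf D i) k]
    exact dseq_zero _ hw0 k
  have h1 : ∀ k, φ (dseq (tcf D i) k).1 = ((MvPolynomial.aeval w (tcf D i 1) : ℂ)) ^ (2 * 4 ^ k) :=
    fun k => congrArg Prod.fst (hmap k)
  have h2 : ∀ k, φ (dseq (tcf D i) k).2 =
      4 ^ (k + 1) * (MvPolynomial.aeval w (tcf D i 1) : ℂ) ^ (2 * 4 ^ k - 2) :=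
    fun k => congrArg Prod.snd (hmap k)
  show φ (gcof D i N) ≠ 0
  unfold gcof
  rw [map_mul, map_prod, map_prod]
  refine mul_ne_zero ?_ ?_
  · rw [Finset.prod_ne_zero_iff]
    intro k _
    rw [h2 k]
    exact mul_ne_zero (pow_ne_zero _ (by norm_num)) (pow_ne_zero _ hw1)
  · rw [Finset.prod_ne_zero_iff]
    intro j _
    rw [map_prod, Finset.prod_ne_zero_iff]
    intro k hk h3
    rw [Finset.mem_range] at hk
    rw [map_sub, map_mul, map_mul, h1, h1, h2, h2] at h3
    set b := (MvPolynomial.aeval w (tcf D i 1) : ℂ) with hb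
    have p1 : 1 ≤ 4 ^ k := Nat.one_le_pow _ _ (by norm_num)
    have p2 : 1 ≤ 4 ^ j := Nat.one_le_pow _ _ (by norm_num)
    have e1 : b ^ (2 * 4 ^ j) = b ^ 2 * b ^ (2 * 4 ^ j - 2) := by
      rw [← pow_add]; congr 1; omega
    have e2 : b ^ (2 * 4 ^ k) = b ^ 2 * b ^ (2 * 4 ^ k - 2) := by
      rw [← pow_add]; congr 1; omega
    rw [e1, e2] at h3
    have e3 : b ^ 2 * b ^ (2 * 4 ^ j - 2) * (4 ^ (k + 1) * b ^ (2 * 4 ^ k - 2)) -
        b ^ 2 * b ^ (2 * 4 ^ k - 2) * (4 ^ (j + 1) * b ^ (2 * 4 ^ j - 2)) =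
        (b ^ 2 * b ^ (2 * 4 ^ j - 2) * b ^ (2 * 4 ^ k - 2)) * (4 ^ (k + 1) - 4 ^ (j + 1)) := by
      ring
    rw [e3] at h3
    have h4 : b ^ 2 * b ^ (2 * 4 ^ j - 2) * b ^ (2 * 4 ^ k - 2) ≠ 0 :=
      mul_ne_zero (mul_ne_zero (pow_ne_zero _ hw1) (pow_ne_zero _ hw1)) (pow_ne_zero _ hw1)
    have h5 := (mul_eq_zero.mp h3).resolve_left h4
    have h6 : (4 : ℂ) ^ (k + 1) = 4 ^ (j + 1) := sub_eq_zero.mp h5
    have h7 : (4 : ℕ) ^ (k + 1) = 4 ^ (j + 1) := by exact_mod_cast h6
    have := Nat.pow_right_injective (le_refl 4 |>.trans' (by norm_num : 2 ≤ 4)) h7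
    omega

/-- a simple zero of `g ^ 2 * h` is a simple zero of `h` -/
theorem simple_zero_sq {F g h : MvPolynomial (Fin m) ℚ} (hF : F = g ^ 2 * h) {j : Fin m}
    {w : Fin m → ℂ} (h0 : (MvPolynomial.aeval w F : ℂ) = 0)
    (h1 : (MvPolynomial.aeval w (MvPolynomial.pderiv j F) : ℂ) ≠ 0) :
    (MvPolynomial.aeval w h : ℂ) = 0 ∧
      (MvPolynomial.aeval w (MvPolynomial.pderiv j h) : ℂ) ≠ 0 := by
  rw [hF, map_mul, map_pow] at h0
  rw [hF, MvPolynomial.pderiv_mul, MvPolynomial.pderiv_pow, map_add, map_mul, map_mul, map_mul,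
    map_mul, map_pow, map_pow] at h1
  have hg : (MvPolynomial.aeval w g : ℂ) ≠ 0 := by
    intro hg
    apply h1
    rw [hg]
    simp
  have hh : (MvPolynomial.aeval w h : ℂ) = 0 :=
    (mul_eq_zero.mp h0).resolve_left (pow_ne_zero _ hg)
  refine ⟨hh, fun hh1 => h1 ?_⟩
  rw [hh, hh1]
  ring


theorem pderiv_frz {s : Finset (Fin m)} (P : Fin m → ℚ) {j : Fin m} (hj : j ∉ s)
    (F : MvPolynomial (Fin m) ℚ) :
    MvPolynomial.pderiv j (frz s P F) = frz s P (MvPolynomial.pderiv j F) := by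
  classical
  induction F using MvPolynomial.induction_on with
  | C a =>
    have h1 : frz s P (MvPolynomial.C a : MvPolynomial (Fin m) ℚ) = MvPolynomial.C a := by
      unfold frz; rw [MvPolynomial.aeval_C]; rfl
    rw [h1, MvPolynomial.pderiv_C, map_zero]
  | add p q hp hq => rw [map_add, map_add, map_add, map_add, hp, hq]
  | mul_X p i hp =>
    rw [map_mul, MvPolynomial.pderiv_mul, MvPolynomial.pderiv_mul, map_add, map_mul, map_mul, hp]
    have h1 : MvPolynomial.pderiv j (frz s P (MvPolynomial.X i : MvPolynomial (Fin m) ℚ)) =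
        frz s P (MvPolynomial.pderiv j (MvPolynomial.X i)) := by
      unfold frz
      rw [MvPolynomial.aeval_X, MvPolynomial.pderiv_X]
      by_cases his : i ∈ s
      · have hij : j ≠ i := fun h => hj (h ▸ his)
        rw [if_pos his, MvPolynomial.pderiv_C, Pi.single_eq_of_ne' hij, map_zero]
      · rw [if_neg his, MvPolynomial.pderiv_X]
        by_cases hij : i = j
        · subst hij; rw [Pi.single_eq_same, map_one]
        · rw [Pi.single_eq_of_ne hij, map_zero]
    rw [h1]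

end Pool.Agent.Lib.MP42
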