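import Pool.Agent.Lib.MP_42de19_nt.QF.Glob
import Pool.Agent.Lib.MP_42de19_nt.QF.Simple

/-!
Free rational points: the closure of the rational points contains a whole connected component.
-/

set_option autoImplicit false

namespace Pool.Agent.Lib.MP42

open Set Topology Filter

variable {m : ℕ}

/-- The free sets of variables at the point `P`. -/
inductive FreeAt {m : ℕ} (f : MvPolynomial (Fin m) ℚ) (P : Fin m → ℚ) : Finset (Fin m) → Prop
  | empty : FreeAt f P ∅
  | conic (K : Finset (Fin m)) (j : Fin m) : FreeAt f P K → f.degreeOf j ≤ 2 →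
      FreeAt f P (insert j K)
  | quartic (K : Finset (Fin m)) (j : Fin m) (w : Fin m → ℂ) : FreeAt f P K →
      (∀ i, i ∉ K → w i = (P i : ℂ)) → (MvPolynomial.aeval w f : ℂ) = 0 →
      (MvPolynomial.aeval w (MvPolynomial.pderiv j f) : ℂ) ≠ 0 → FreeAt f P (insert j K)

/-- OPENNESS AT FREE POINTS. -/
theorem interior_of_free {f : MvPolynomial (Fin m) ℚ} (h4 : ∀ i, f.degreeOf i ≤ 4)
    {P : Fin m → ℚ} (hpos : 0 < MvPolynomial.eval P f)
    (hy : ∃ y : ℚ, y ^ 2 = MvPolynomial.eval P f) {K : Finset (Fin m)} (hK : FreeAt f P K) :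
    (fun i => (P i : ℝ)) ∈ interior {x | SqLim (frz Kᶜ P f) x} := by
  classical
  induction hK with
  | empty =>
    have : (∅ : Finset (Fin m))ᶜ = Finset.univ := Finset.compl_empty
    rw [this]
    exact interior_frz_univ hy _
  | conic K j _ hj ih =>
    by_cases hjK : j ∈ K
    · rw [Finset.insert_eq_of_mem hjK]; exact ih
    have hunion : {j} ∪ (insert j K)ᶜ = Kᶜ := by
      ext i
      simp only [Finset.mem_union, Finset.mem_singleton, Finset.mem_compl, Finset.mem_insert,
        not_or]
      by_cases hi : i = j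
      · subst hi; simp [hjK]
      · simp [hi]
    refine step_unfreeze (g := 1) (r := 1) (h := frz (insert j K)ᶜ P f) (j := j) (by ring)
      (by rw [eval_self_frz]; exact hpos) (by rw [MvPolynomial.degreeOf_one]) ?_ (Or.inl ?_)
    · rw [frz_frz, hunion]; exact ih
    · refine (degreeOf_frz_le _ P f j).trans ?_
      rw [if_neg (by simp)]; exact hj
  | quartic K j w _ hw hw0 hw1 ih =>
    by_cases hjK : j ∈ K
    · rw [Finset.insert_eq_of_mem hjK]; exact ih
    have hunion : {j} ∪ (insert j K)ᶜ = Kᶜ := by
      ext i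
      simp only [Finset.mem_union, Finset.mem_singleton, Finset.mem_compl, Finset.mem_insert,
        not_or]
      by_cases hi : i = j
      · subst hi; simp [hjK]
      · simp [hi]
    set s := (insert j K)ᶜ with hs
    have hjs : j ∉ s := by simp [hs]
    have hsK : ∀ i ∈ s, i ∉ K := by
      intro i hi hiK
      rw [hs, Finset.mem_compl, Finset.mem_insert] at hi
      exact hi (Or.inr hiK)
    set F := frz s P f with hF
    have hFP : MvPolynomial.eval P F = MvPolynomial.eval P f := eval_self_frz s P f
    have hF0 : F ≠ 0 := by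
      intro h; rw [h, map_zero] at hFP; rw [← hFP] at hpos; exact lt_irrefl _ hpos
    have hF4 : F.degreeOf j ≤ 4 := by
      refine (degreeOf_frz_le s P f j).trans ?_
      rw [if_neg hjs]; exact h4 j
    -- the values of F near w
    have hFw : ∀ x : ℂ, (MvPolynomial.aeval (Function.update w j x) F : ℂ) =
        MvPolynomial.aeval (Function.update w j x) f := by
      intro x
      rw [hF, aeval_frz]
      congr 2
      funext i
      by_cases hi : i ∈ s
      · have hij : i ≠ j := fun h => hjs (h ▸ hi)
        rw [if_pos hi, Function.update_of_ne hij, hw i (hsK i hi)]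
        rfl
      · rw [if_neg hi]
    have hF0w : (MvPolynomial.aeval w F : ℂ) = 0 := by
      have := hFw (w j)
      rw [Function.update_eq_self] at this
      rw [this]; exact hw0
    have hF1w : (MvPolynomial.aeval w (MvPolynomial.pderiv j F) : ℂ) ≠ 0 := by
      have h5 : (fun k => (MvPolynomial.aeval w (tcf F j k) : ℂ)) =
          fun k => MvPolynomial.aeval w (tcf f j k) := by
        apply ev4_inj
        intro x
        rw [ev4_tcf F j hF4, ev4_tcf f j (h4 j), hFw]
      have h6 := congrFun h5 1
      have e1 : tcf F j 1 = MvPolynomial.pderiv j F := tay_coeff_one F j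
      have e2 : tcf f j 1 = MvPolynomial.pderiv j f := tay_coeff_one f j
      simp only [e1, e2] at h6
      rw [h6]; exact hw1
    obtain ⟨g, h, hgh, hsq⟩ := exists_sq_mul_squarefree F hF0
    have hg0 : g ≠ 0 := by rintro rfl; apply hF0; rw [hgh]; ring
    have hh4 : h.degreeOf j ≤ 4 := by
      have := hF4
      rw [hgh, MvPolynomial.degreeOf_mul_eq (pow_ne_zero 2 hg0) hsq.ne_zero] at this
      omega
    refine step_unfreeze (g := g) (r := 1) (h := h) (j := j) (by rw [one_mul]; exact hgh)
      (by rw [hFP]; exact hpos) (by rw [MvPolynomial.degreeOf_one]) ?_ ?_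
    · rw [hF, frz_frz, hunion]; exact ih
    · by_cases h2 : h.degreeOf j ≤ 2
      · exact Or.inl h2
      refine Or.inr ⟨hh4, disc_tcf_ne_zero hsq j (by omega) hh4, fun N => ?_⟩
      obtain ⟨hh0, hh1⟩ := simple_zero_sq hgh hF0w hF1w
      have hcof := gcof_ne (D := h) (i := j) (w := w) (by
        rw [tcf_zero h j hh4]; exact hh0) (by
        have e1 : tcf h j 1 = MvPolynomial.pderiv j h := tay_coeff_one h j
        rw [e1]; exact hh1) N
      rw [gpoly_eq, map_mul]
      refine mul_ne_zero ?_ ?_
      · intro h0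
        have h5 := eval_self_frz {j} P h
        rw [h0, map_zero] at h5
        have h6 : MvPolynomial.eval P F = 0 := by rw [hgh, map_mul, ← h5, mul_zero]
        rw [h6] at hFP
        rw [← hFP] at hpos
        exact lt_irrefl _ hpos
      · intro h0
        apply hcof
        have h5 := aeval_frz {j} P (gcof h j N) w
        rw [h0, map_zero] at h5
        have h6 : (fun i => if i ∈ ({j} : Finset (Fin m)) then algebraMap ℚ ℂ (P i) else w i) = w := by
          funext i
          by_cases hi : i = j
          · subst hi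
            rw [if_pos (by simp), hw i hjK]
            rfl
          · rw [if_neg (by simpa using hi)]
        rw [h6] at h5
        exact h5.symm

/-- the rational points where `f` is a nonzero square -/
def sqPts (f : MvPolynomial (Fin m) ℚ) : Set (Fin m → ℚ) :=
  {z | ∃ y : ℚ, y ≠ 0 ∧ y ^ 2 = MvPolynomial.eval z f}

/-- The closure contains the interior of the set of limits of the squarefree part. -/
theorem mem_closure_sqPts {f s H : MvPolynomial (Fin m) ℚ} (hf : f = s ^ 2 * H) (hf0 : f ≠ 0)
    {x : Fin m → ℝ} (hx : x ∈ interior {x | SqLim H x}) : x ∈ closure (castSet (sqPts f)) := by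
  rw [Metric.mem_closure_iff]
  intro ε hε
  have hs0 : s ≠ 0 := by rintro rfl; apply hf0; rw [hf]; ring
  have hH0 : H ≠ 0 := by rintro rfl; apply hf0; rw [hf]; ring
  obtain ⟨z, hz1, hz2, y, hy⟩ := zl_of_interior hx (Metric.ball x ε) (Metric.ball_mem_nhds x hε)
    (s * H) (mul_ne_zero hs0 hH0)
  rw [map_mul] at hz2
  have hsz := left_ne_zero_of_mul hz2
  have hHz := right_ne_zero_of_mul hz2
  have hy0 : y ≠ 0 := by rintro rfl; apply hHz; rw [← hy]; ring
  refine ⟨fun i => (z i : ℝ), ⟨z, ⟨MvPolynomial.eval z s * y, mul_ne_zero hsz hy0, ?_⟩,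
    fun i => rfl⟩, by rw [dist_comm]; exact hz1⟩
  rw [mul_pow, hy, hf, map_mul, map_pow]

theorem component_of_free {f : MvPolynomial (Fin m) ℚ} (h4 : ∀ i, f.degreeOf i ≤ 4)
    {P : Fin m → ℚ} (hP : P ∈ sqPts f) (hfree : FreeAt f P Finset.univ) :
    connectedComponentIn {x : Fin m → ℝ | 0 < (MvPolynomial.aeval x f : ℝ)}
      (fun i => (P i : ℝ)) ⊆ closure (castSet (sqPts f)) := by
  classical
  obtain ⟨y, hy0, hy⟩ := hP
  have hpos : 0 < MvPolynomial.eval P f := by rw [← hy]; positivity
  have hf0 : f ≠ 0 := by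
    intro h; rw [h, map_zero] at hpos; exact lt_irrefl _ hpos
  have h1 := interior_of_free h4 hpos ⟨y, hy⟩ hfree
  rw [Finset.compl_univ] at h1
  have e2 : frz ∅ P f = f := frz_eq_self fun i hi => by simp at hi
  rw [e2] at h1
  obtain ⟨s, H, hf, hgood⟩ := exists_good f hf0 h4
  have hsP : (MvPolynomial.aeval (fun i => (P i : ℝ)) s : ℝ) ≠ 0 := by
    rw [aeval_ratCast]
    intro h
    have h' : MvPolynomial.eval P s = 0 := by exact_mod_cast h
    rw [hf, map_mul, map_pow, h'] at hpos
    simp at hpos
  have h2 := interior_sq_mul hf hsP h1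
  have hHpos : ∀ x : Fin m → ℝ, 0 < (MvPolynomial.aeval x f : ℝ) →
      0 < (MvPolynomial.aeval x H : ℝ) := by
    intro x hx
    rw [hf, map_mul, map_pow] at hx
    by_contra hcon
    push Not at hcon
    exact absurd hx (not_lt.mpr (mul_nonpos_of_nonneg_of_nonpos (sq_nonneg _) hcon))
  have hPmem : (fun i => (P i : ℝ)) ∈ {x : Fin m → ℝ | 0 < (MvPolynomial.aeval x f : ℝ)} := by
    rw [mem_ofPred_eq, aeval_ratCast]; exact_mod_cast hpos
  have hsub : connectedComponentIn {x : Fin m → ℝ | 0 < (MvPolynomial.aeval x f : ℝ)}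
      (fun i => (P i : ℝ)) ⊆ interior {x | SqLim H x} := by
    refine isPreconnected_connectedComponentIn.subset_of_closure_inter_subset isOpen_interior
      ⟨_, mem_connectedComponentIn hPmem, h2⟩ ?_
    rintro x ⟨hx1, hx2⟩
    have hx3 := connectedComponentIn_subset {x : Fin m → ℝ | 0 < (MvPolynomial.aeval x f : ℝ)}
      (fun i => (P i : ℝ)) hx2
    exact mem_interior_of_closure hgood (hHpos x hx3) hx1
  intro x hx
  exact mem_closure_sqPts hf hf0 (hsub hx)

/-- If all the points are free then the closure is semialgebraic. -/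
theorem sa_of_free {f : MvPolynomial (Fin m) ℚ} (h4 : ∀ i, f.degreeOf i ≤ 4)
    (hfree : ∀ P ∈ sqPts f, FreeAt f P Finset.univ) :
    SA (evR m) (closure (castSet (sqPts f))) := by
  classical
  by_cases hf0 : f = 0
  · have : castSet (sqPts f) = ∅ := by
      rw [Set.eq_empty_iff_forall_notMem]
      rintro x ⟨z, ⟨y, hy0, hy⟩, -⟩
      rw [hf0, map_zero] at hy
      exact hy0 (by simpa using hy)
    rw [this, closure_empty]; exact SA.empty
  obtain ⟨s, H, hf, hgood⟩ := exists_good f hf0 h4
  set W : Set (Fin m → ℝ) := {x | 0 < (MvPolynomial.aeval x H : ℝ)} ∩ interior {x | SqLim H x}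
    with hW
  have hWSA : SA (evR m) W := by
    have hpos : SA (evR m) {x : Fin m → ℝ | 0 < (MvPolynomial.aeval x H : ℝ)} := by
      have : {x : Fin m → ℝ | 0 < (MvPolynomial.aeval x H : ℝ)} = {x | 0 < evR m H x} := by
        ext x; simp [evR_apply]
      rw [this]; exact SA.pos H
    refine SA.of_clopen (S := {x : Fin m → ℝ | 0 < (MvPolynomial.aeval x H : ℝ)})
      (U := interior {x | SqLim H x}) (Z := closure (interior {x | SqLim H x})) hpos
      isOpen_interior isClosed_closure rfl ?_
    apply Set.Subset.antisymm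
    · rintro x ⟨hx1, hx2⟩; exact ⟨hx1, subset_closure hx2⟩
    · rintro x ⟨hx1, hx2⟩; exact ⟨hx1, mem_interior_of_closure hgood hx1 hx2⟩
  have hcl : closure (castSet (sqPts f)) = closure W := by
    apply Set.Subset.antisymm
    · apply closure_mono
      rintro x ⟨P, hP, hx⟩
      have hxP : x = fun i => (P i : ℝ) := funext hx
      obtain ⟨y, hy0, hy⟩ := hP
      have hpos : 0 < MvPolynomial.eval P f := by rw [← hy]; positivity
      have h1 := interior_of_free h4 hpos ⟨y, hy⟩ (hfree P ⟨y, hy0, hy⟩)
      rw [Finset.compl_univ] at h1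
      have e2 : frz ∅ P f = f := frz_eq_self fun i hi => by simp at hi
      rw [e2, ← hxP] at h1
      have hsP : (MvPolynomial.aeval x s : ℝ) ≠ 0 := by
        rw [hxP, aeval_ratCast]
        intro h
        have h' : MvPolynomial.eval P s = 0 := by exact_mod_cast h
        rw [hf, map_mul, map_pow, h'] at hpos
        simp at hpos
      refine ⟨?_, interior_sq_mul hf hsP h1⟩
      have h3 : 0 < (MvPolynomial.aeval x f : ℝ) := by
        rw [hxP, aeval_ratCast]; exact_mod_cast hpos
      rw [hf, map_mul, map_pow] at h3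
      show 0 < (MvPolynomial.aeval x H : ℝ)
      by_contra hcon
      push Not at hcon
      exact absurd h3 (not_lt.mpr (mul_nonpos_of_nonneg_of_nonpos (sq_nonneg _) hcon))
    · refine closure_minimal ?_ isClosed_closure
      rintro x ⟨-, hx⟩
      exact mem_closure_sqPts hf hf0 hx
  rw [hcl]
  exact hWSA.closure

end Pool.Agent.Lib.MP42
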