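import Pool.Agent.Lib.MP_42de19_nt.QF.Local
import Pool.Agent.Lib.MP_42de19_nt.Boxes

/-!
The closure of a saturated set of rational points outside the exceptional slices.
-/

set_option autoImplicit false

namespace Pool.Agent.Lib.MP42

open Set Topology Filter

variable {m : ℕ}

/-- `z` and `z'` have the same classes modulo nonzero squares. -/
def Rel {r : ℕ} (G : Fin r → MvPolynomial (Fin m) ℚ) (z z' : Fin m → ℚ) : Prop :=
  ∀ a, ∃ l : ℚ, l ≠ 0 ∧ MvPolynomial.eval z' (G a) = l ^ 2 * MvPolynomial.eval z (G a)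

theorem good_smul {D : MvPolynomial (Fin m) ℚ} (hD : Good D) {κ : ℚ} (hκ : κ ≠ 0) :
    Good (MvPolynomial.C κ * D) := by
  intro i
  have hle : (MvPolynomial.C κ * D).degreeOf i ≤ D.degreeOf i := by
    have := MvPolynomial.degreeOf_mul_le i (MvPolynomial.C κ) D
    rwa [MvPolynomial.degreeOf_C, zero_add] at this
  rcases hD i with h | ⟨h4, hd⟩
  · exact Or.inl (hle.trans h)
  · refine Or.inr ⟨hle.trans h4, ?_⟩
    rw [disc_mul (MvPolynomial.degreeOf_C κ i)]
    exact mul_ne_zero (pow_ne_zero _ (by simpa using hκ)) hd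

/-- removing a square factor near a point where it does not vanish -/
theorem sqLim_of_sq_mul {D s H : MvPolynomial (Fin m) ℚ} (hD : D = s ^ 2 * H) {x : Fin m → ℝ}
    (hs : (MvPolynomial.aeval x s : ℝ) ≠ 0) (hx : SqLim D x) : SqLim H x := by
  intro ε hε
  have h1 : ∀ᶠ w in 𝓝 x, (MvPolynomial.aeval w s : ℝ) ≠ 0 :=
    (continuous_aeval s).continuousAt.eventually_ne hs
  rw [Metric.eventually_nhds_iff] at h1
  obtain ⟨δ, hδ, h1⟩ := h1
  obtain ⟨z, hz, y, hy⟩ := hx (min ε δ) (lt_min hε hδ)
  have h2 : (MvPolynomial.aeval (fun j => (z j : ℝ)) s : ℝ) ≠ 0 := by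
    apply h1
    rw [dist_pi_lt_iff hδ]
    intro j
    rw [Real.dist_eq]
    exact lt_of_lt_of_le (hz j) (min_le_right _ _)
  have h3 : MvPolynomial.eval z s ≠ 0 := by
    intro h; apply h2; rw [aeval_ratCast, h]; simp
  refine ⟨z, fun j => lt_of_lt_of_le (hz j) (min_le_left _ _), y / MvPolynomial.eval z s, ?_⟩
  rw [div_pow, hy, hD, map_mul, map_pow]
  field_simp

theorem interior_sq_mul {D s H : MvPolynomial (Fin m) ℚ} (hD : D = s ^ 2 * H) {x : Fin m → ℝ}
    (hs : (MvPolynomial.aeval x s : ℝ) ≠ 0) (hx : x ∈ interior {x | SqLim D x}) :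
    x ∈ interior {x | SqLim H x} := by
  have hopen : IsOpen ({w : Fin m → ℝ | (MvPolynomial.aeval w s : ℝ) ≠ 0} ∩
      interior {x | SqLim D x}) :=
    (isOpen_ne_fun (continuous_aeval s) continuous_const).inter isOpen_interior
  refine interior_maximal ?_ hopen ⟨hs, hx⟩
  rintro w ⟨hw1, hw2⟩
  exact sqLim_of_sq_mul hD hw1 (interior_subset hw2)

/-- a small ball on which finitely many functions do not change sign -/
theorem exists_ball_sign {r : ℕ} {H : Fin r → MvPolynomial (Fin m) ℚ} {x : Fin m → ℝ}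
    (hx : ∀ a, (MvPolynomial.aeval x (H a) : ℝ) ≠ 0) : ∃ ρ > 0, ∀ w ∈ Metric.ball x ρ, ∀ a,
      0 < (MvPolynomial.aeval w (H a) : ℝ) * MvPolynomial.aeval x (H a) := by
  have h1 : ∀ᶠ w in 𝓝 x, ∀ a,
      0 < (MvPolynomial.aeval w (H a) : ℝ) * MvPolynomial.aeval x (H a) := by
    rw [Filter.eventually_all]
    intro a
    apply continuousAt_const.eventually_lt
    · exact ((continuous_aeval (H a)).mul continuous_const).continuousAt
    · exact mul_self_pos.mpr (hx a)
  rw [Metric.eventually_nhds_iff] at h1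
  obtain ⟨ρ, hρ, h1⟩ := h1
  exact ⟨ρ, hρ, fun w hw => h1 hw⟩

theorem degreeOf_sq_mul {G s H : MvPolynomial (Fin m) ℚ} (h : G = s ^ 2 * H) (hG : G ≠ 0)
    (i : Fin m) (hi : G.degreeOf i = 0) : s.degreeOf i = 0 ∧ H.degreeOf i = 0 := by
  have hs0 : s ≠ 0 := by rintro rfl; apply hG; rw [h]; ring
  have hH0 : H ≠ 0 := by rintro rfl; apply hG; rw [h]; ring
  have h1 : G.degreeOf i = 2 * s.degreeOf i + H.degreeOf i := by
    rw [h, MvPolynomial.degreeOf_mul_eq (pow_ne_zero 2 hs0) hH0, pow_two,
      MvPolynomial.degreeOf_mul_eq hs0 hs0]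
    ring
  omega

/-- The generic part. -/
theorem sa_closure_generic {r : ℕ} (G : Fin r → MvPolynomial (Fin m) ℚ) (b : Fin m → Fin r)
    (hb : ∀ a i, (G a).degreeOf i ≠ 0 → b i = a) (T : Finset (Fin m)) (E : Fin m → Finset ℚ)
    (h4 : ∀ a i, (G a).degreeOf i ≤ 4)
    (hloc : ∀ a (P : Fin m → ℚ) (κ : ℚ), (∀ j ∈ T, P j ∉ E j) →
      0 < MvPolynomial.eval P (MvPolynomial.C κ * G a) →
      (∃ y : ℚ, y ^ 2 = MvPolynomial.eval P (MvPolynomial.C κ * G a)) →
      (fun i => (P i : ℝ)) ∈ interior {x | SqLim (MvPolynomial.C κ * G a) x})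
    (A : Set (Fin m → ℚ))
    (hne : ∀ z ∈ A, ∀ a, MvPolynomial.eval z (G a) ≠ 0)
    (hsat : ∀ z ∈ A, ∀ z', Rel G z z' → z' ∈ A) :
    SA (evR m) (closure (castSet {z | z ∈ A ∧ ∀ j ∈ T, z j ∉ E j})) := by
  classical
  by_cases hA : A = ∅
  · have : castSet {z | z ∈ A ∧ ∀ j ∈ T, z j ∉ E j} = ∅ := by
      rw [Set.eq_empty_iff_forall_notMem]
      rintro x ⟨z, ⟨hz, -⟩, -⟩
      rw [hA] at hz
      exact hz
    rw [this, closure_empty]
    exact SA.empty
  obtain ⟨z₀, hz₀⟩ := Set.nonempty_iff_ne_empty.mpr hA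
  have hG0 : ∀ a, G a ≠ 0 := by
    intro a h
    apply hne z₀ hz₀ a
    rw [h, map_zero]
  choose s H hGH hgood using fun a => exists_good (G a) (hG0 a) (h4 a)
  set Ag : Set (Fin m → ℚ) := {z | z ∈ A ∧ ∀ j ∈ T, z j ∉ E j} with hAg
  have hval : ∀ (z : Fin m → ℚ) a, MvPolynomial.eval z (G a) =
      MvPolynomial.eval z (s a) ^ 2 * MvPolynomial.eval z (H a) := by
    intro z a
    conv_lhs => rw [hGH a]
    rw [map_mul, map_pow]
  let D : (Fin m → ℚ) → Fin r → MvPolynomial (Fin m) ℚ := fun P a =>
    MvPolynomial.C (MvPolynomial.eval P (G a)) * H a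
  have hDR : ∀ P a (x : Fin m → ℝ), (MvPolynomial.aeval x (D P a) : ℝ) =
      (MvPolynomial.eval P (G a) : ℝ) * MvPolynomial.aeval x (H a) := by
    intro P a x
    simp only [D]
    rw [map_mul, MvPolynomial.aeval_C]
    rfl
  let WP : (Fin m → ℚ) → Set (Fin m → ℝ) := fun P =>
    ⋂ a, ({x | 0 < (MvPolynomial.aeval x (D P a) : ℝ)} ∩ interior {x | SqLim (D P a) x})
  let W : Set (Fin m → ℝ) := ⋃ P ∈ Ag, WP P
  have hWPopen : ∀ P, IsOpen (WP P) := fun P =>
    isOpen_iInter_of_finite fun a =>
      (isOpen_lt continuous_const (continuous_aeval (D P a))).inter isOpen_interior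
  have hWopen : IsOpen W := isOpen_biUnion fun P _ => hWPopen P
  let Z : Set (Fin m → ℝ) := ⋂ a, {x | (MvPolynomial.aeval x (H a) : ℝ) ≠ 0}
  have hZSA : SA (evR m) Z := by
    refine SA.iInter_finite _ fun a => ?_
    have : {x : Fin m → ℝ | (MvPolynomial.aeval x (H a) : ℝ) ≠ 0} = {x | evR m (H a) x ≠ 0} := by
      ext x; simp [evR_apply]
    rw [this]; exact SA.ne_zero _
  have hWZ : W ⊆ Z := by
    intro x hx
    simp only [W, mem_iUnion] at hx
    obtain ⟨P, hP, hx⟩ := hx
    rw [mem_iInter] at hx ⊢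
    intro a h
    have h1 := (hx a).1
    rw [mem_ofPred_eq, hDR, h, mul_zero] at h1
    exact lt_irrefl _ h1
  have hWcl : closure W ∩ Z ⊆ W := by
    rintro x ⟨hxc, hxZ⟩
    have hxZ' : ∀ a, (MvPolynomial.aeval x (H a) : ℝ) ≠ 0 := by
      intro a; exact mem_iInter.mp hxZ a
    obtain ⟨ρ, hρ, hball⟩ := exists_ball_sign hxZ'
    obtain ⟨x', hx'W, hx'd⟩ := Metric.mem_closure_iff.mp hxc ρ hρ
    rw [dist_comm] at hx'd
    simp only [W, mem_iUnion] at hx'W
    obtain ⟨P, hP, hx'P⟩ := hx'W
    simp only [W, mem_iUnion]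
    refine ⟨P, hP, ?_⟩
    simp only [WP, mem_iInter] at hx'P ⊢
    intro a
    have hpos : ∀ w ∈ Metric.ball x ρ, 0 < (MvPolynomial.aeval w (D P a) : ℝ) := by
      intro w hw
      have h1 := hball w hw a
      have h2 := hball x' hx'd a
      have h3 := (hx'P a).1
      rw [mem_ofPred_eq, hDR] at h3
      rw [hDR]
      have h4 : 0 < (MvPolynomial.aeval x (H a) : ℝ) ^ 2 := by
        have := hxZ' a
        positivity
      have h5 : 0 < ((MvPolynomial.aeval w (H a) : ℝ) * MvPolynomial.aeval x (H a)) *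
          ((MvPolynomial.aeval x' (H a) : ℝ) * MvPolynomial.aeval x (H a)) := mul_pos h1 h2
      have h6 : 0 < (MvPolynomial.aeval w (H a) : ℝ) * MvPolynomial.aeval x' (H a) := by
        have e : ((MvPolynomial.aeval w (H a) : ℝ) * MvPolynomial.aeval x (H a)) *
          ((MvPolynomial.aeval x' (H a) : ℝ) * MvPolynomial.aeval x (H a)) =
          ((MvPolynomial.aeval w (H a) : ℝ) * MvPolynomial.aeval x' (H a)) *
          (MvPolynomial.aeval x (H a) : ℝ) ^ 2 := by ring
        rw [e] at h5
        exact pos_of_mul_pos_left h5 h4.le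
      have h7 : 0 < ((MvPolynomial.aeval w (H a) : ℝ) * MvPolynomial.aeval x' (H a)) *
          ((MvPolynomial.eval P (G a) : ℝ) * MvPolynomial.aeval x' (H a)) := mul_pos h6 h3
      have h8 : 0 < (MvPolynomial.aeval x' (H a) : ℝ) ^ 2 := by
        have h9 : (MvPolynomial.aeval x' (H a) : ℝ) ≠ 0 := by
          intro h; rw [h, mul_zero] at h3; exact lt_irrefl _ h3
        positivity
      have e : ((MvPolynomial.aeval w (H a) : ℝ) * MvPolynomial.aeval x' (H a)) *
          ((MvPolynomial.eval P (G a) : ℝ) * MvPolynomial.aeval x' (H a)) =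
          ((MvPolynomial.eval P (G a) : ℝ) * MvPolynomial.aeval w (H a)) *
          (MvPolynomial.aeval x' (H a) : ℝ) ^ 2 := by ring
      rw [e] at h7
      exact pos_of_mul_pos_left h7 h8.le
    have hκ : MvPolynomial.eval P (G a) ≠ 0 := hne P hP.1 a
    have hgoodD : Good (D P a) := good_smul (hgood a) hκ
    have hpre : IsPreconnected (Metric.ball x ρ) := (convex_ball x ρ).isPreconnected
    have hsub : Metric.ball x ρ ⊆ interior {x | SqLim (D P a) x} := by
      refine hpre.subset_of_closure_inter_subset isOpen_interior ⟨x', hx'd, (hx'P a).2⟩ ?_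
      rintro w ⟨hw1, hw2⟩
      exact mem_interior_of_closure hgoodD (hpos w hw2) hw1
    exact ⟨hpos x (Metric.mem_ball_self hρ), hsub (Metric.mem_ball_self hρ)⟩
  have hWSA : SA (evR m) W := by
    refine SA.of_clopen (S := Z) (U := W) (Z := closure W) hZSA hWopen isClosed_closure ?_ ?_
    · exact (Set.inter_eq_right.mpr hWZ).symm
    · apply Set.Subset.antisymm
      · intro x hx; exact ⟨hWZ hx, subset_closure hx⟩
      · rintro x ⟨hx1, hx2⟩; exact hWcl ⟨hx2, hx1⟩
  have hcl : closure (castSet Ag) = closure W := by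
    apply Set.Subset.antisymm
    · apply closure_mono
      rintro x ⟨P, hP, hx⟩
      have hxP : x = fun i => (P i : ℝ) := funext hx
      simp only [W, mem_iUnion]
      refine ⟨P, hP, ?_⟩
      simp only [WP, mem_iInter]
      intro a
      have hκ : MvPolynomial.eval P (G a) ≠ 0 := hne P hP.1 a
      have hsP : MvPolynomial.eval P (s a) ≠ 0 := by
        intro h; apply hκ; rw [hval, h]; ring
      have hHP : MvPolynomial.eval P (H a) ≠ 0 := by
        intro h; apply hκ; rw [hval, h]; ring
      constructor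
      · rw [mem_ofPred_eq, hDR, hxP, aeval_ratCast, hval]
        have h1 : 0 < MvPolynomial.eval P (s a) ^ 2 * MvPolynomial.eval P (H a) *
            MvPolynomial.eval P (H a) := by
          have : MvPolynomial.eval P (s a) ^ 2 * MvPolynomial.eval P (H a) *
            MvPolynomial.eval P (H a) =
            (MvPolynomial.eval P (s a) * MvPolynomial.eval P (H a)) ^ 2 := by ring
          rw [this]; positivity
        exact_mod_cast h1
      · have hloc := hloc a P (MvPolynomial.eval P (G a)) (fun j hj => hP.2 j hj) (by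
            rw [map_mul, MvPolynomial.eval_C]
            exact mul_self_pos.mpr hκ) ⟨MvPolynomial.eval P (G a), by
            rw [map_mul, MvPolynomial.eval_C]; ring⟩
        rw [← hxP] at hloc
        refine interior_sq_mul (s := s a) ?_ ?_ hloc
        · calc MvPolynomial.C (MvPolynomial.eval P (G a)) * G a
              = MvPolynomial.C (MvPolynomial.eval P (G a)) * (s a ^ 2 * H a) :=
                congrArg (fun q => MvPolynomial.C (MvPolynomial.eval P (G a)) * q) (hGH a)
            _ = s a ^ 2 * D P a := by simp only [D]; ring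
        · rw [hxP, aeval_ratCast]; exact_mod_cast hsP
    · refine closure_minimal ?_ isClosed_closure
      intro x hx
      simp only [W, mem_iUnion] at hx
      obtain ⟨P, hP, hx⟩ := hx
      simp only [WP, mem_iInter] at hx
      rw [Metric.mem_closure_iff]
      intro ε hε
      -- approximate in each block
      let Γ : Fin r → MvPolynomial (Fin m) ℚ := fun a => s a * H a *
        ∏ j ∈ T, ∏ e ∈ E j, (MvPolynomial.X j - MvPolynomial.C e)
      have hΓ : ∀ a, Γ a ≠ 0 := by
        intro a
        have hs0 : s a ≠ 0 := by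
          intro h; apply hG0 a; rw [hGH a, h]; ring
        have hH0 : H a ≠ 0 := by
          intro h; apply hG0 a; rw [hGH a, h]; ring
        refine mul_ne_zero (mul_ne_zero hs0 hH0) ?_
        rw [Finset.prod_ne_zero_iff]
        intro j _
        rw [Finset.prod_ne_zero_iff]
        intro e _ h
        have h1 := congrArg (MvPolynomial.eval (fun _ => e + 1)) h
        rw [map_sub, MvPolynomial.eval_X, MvPolynomial.eval_C, map_zero] at h1
        linarith
      have happ : ∀ a, ∃ z : Fin m → ℚ, (∀ i, |(z i : ℝ) - x i| < ε) ∧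
          MvPolynomial.eval z (Γ a) ≠ 0 ∧ ∃ y : ℚ, y ^ 2 = MvPolynomial.eval z (D P a) := by
        intro a
        have hzl : ZL (D P a) x := zl_of_interior (hx a).2
        obtain ⟨z, hz1, hz2, hz3⟩ := hzl (Metric.ball x ε) (Metric.ball_mem_nhds x hε) (Γ a) (hΓ a)
        rw [Metric.mem_ball, dist_pi_lt_iff hε] at hz1
        exact ⟨z, fun i => by have := hz1 i; rwa [Real.dist_eq] at this, hz2, hz3⟩
      choose ζ hζ1 hζ2 hζ3 using happ
      let z : Fin m → ℚ := fun i => ζ (b i) i
      have hzs : ∀ a, MvPolynomial.eval z (s a) = MvPolynomial.eval (ζ a) (s a) := by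
        intro a
        apply eval_congr_deg
        intro i hi
        have h1 : b i = a := by
          apply hb
          intro h0
          exact hi (degreeOf_sq_mul (hGH a) (hG0 a) i h0).1
        simp only [z, h1]
      have hzH : ∀ a, MvPolynomial.eval z (H a) = MvPolynomial.eval (ζ a) (H a) := by
        intro a
        apply eval_congr_deg
        intro i hi
        have h1 : b i = a := by
          apply hb
          intro h0
          exact hi (degreeOf_sq_mul (hGH a) (hG0 a) i h0).2
        simp only [z, h1]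
      have hrel : Rel G P z := by
        intro a
        obtain ⟨y, hy⟩ := hζ3 a
        have hκ : MvPolynomial.eval P (G a) ≠ 0 := hne P hP.1 a
        have h1 := hζ2 a
        simp only [Γ, map_mul] at h1
        have h2 := left_ne_zero_of_mul h1
        have hsa := left_ne_zero_of_mul h2
        have hHa := right_ne_zero_of_mul h2
        simp only [D, map_mul, MvPolynomial.eval_C] at hy
        have hy0 : y ≠ 0 := by
          rintro rfl
          have : MvPolynomial.eval P (G a) * MvPolynomial.eval (ζ a) (H a) ≠ 0 :=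
            mul_ne_zero hκ hHa
          apply this
          rw [← hy]; ring
        refine ⟨MvPolynomial.eval (ζ a) (s a) * y / MvPolynomial.eval P (G a),
          div_ne_zero (mul_ne_zero hsa hy0) hκ, ?_⟩
        rw [hval z a, hzs, hzH, div_pow, mul_pow, hy]
        field_simp
      refine ⟨fun i => (z i : ℝ), ⟨z, ⟨hsat P hP.1 z hrel, ?_⟩, fun i => rfl⟩, ?_⟩
      · intro j hj hmem
        have h1 := hζ2 (b j)
        simp only [Γ, map_mul, map_prod] at h1
        have h2 := right_ne_zero_of_mul h1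
        rw [Finset.prod_ne_zero_iff] at h2
        have h3 := h2 j hj
        rw [Finset.prod_ne_zero_iff] at h3
        have h4 := h3 (z j) hmem
        apply h4
        rw [map_sub, MvPolynomial.eval_X, MvPolynomial.eval_C]
        simp only [z, sub_self]
      · rw [dist_comm, dist_pi_lt_iff hε]
        intro i
        rw [Real.dist_eq]
        exact hζ1 (b i) i
  rw [hcl]
  exact hWSA.closure

end Pool.Agent.Lib.MP42
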