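import Pool.Agent.Lib.MP_42de19_nt.QF.Sub
import Pool.Agent.Lib.MP_42de19_nt.OneVar

/-!
Northcott's theorem for the Lattes map at one rational point: the finite exceptional set of a
quartic variable.
-/

set_option autoImplicit false

namespace Pool.Agent.Lib.MP42

open Set Topology Filter Height

variable {m : ℕ}

theorem coprime_of_disc4 {f : Polynomial ℚ} (h4 : f.natDegree ≤ 4)
    (hd : disc4 (fun k : Fin 5 => f.coeff k) ≠ 0) :
    IsCoprime f (Polynomial.derivative f) ∧ 3 ≤ f.natDegree := by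
  have hc4 : ∀ n, 4 < n → f.coeff n = 0 := fun n hn =>
    Polynomial.coeff_eq_zero_of_natDegree_lt (lt_of_le_of_lt h4 hn)
  constructor
  · rw [Polynomial.isCoprime_iff_aeval_ne_zero_of_isAlgClosed ℚ ℂ]
    intro a
    by_contra hcon
    push Not at hcon
    obtain ⟨h1, h2⟩ := hcon
    apply hd
    have e1 : disc4 (fun k : Fin 5 => ((f.coeff k : ℚ) : ℂ)) = 0 := by
      refine disc4_eq_zero_of_double _ a ?_ ?_
      · rw [Polynomial.aeval_eq_sum_range' (lt_of_le_of_lt h4 (by norm_num : 4 < 5))] at h1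
        simp only [Finset.sum_range_succ, Finset.sum_range_zero, Algebra.smul_def] at h1
        simp only [ev4]
        simpa using h1
      · have hdeg : (Polynomial.derivative f).natDegree < 4 := by
          have := Polynomial.natDegree_derivative_le f
          omega
        rw [Polynomial.aeval_eq_sum_range' hdeg] at h2
        simp only [Finset.sum_range_succ, Finset.sum_range_zero, Algebra.smul_def,
          Polynomial.coeff_derivative] at h2
        simp only [map_mul, map_add, map_natCast, map_one, map_zero, Nat.cast_zero, Nat.cast_one,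
          Nat.cast_ofNat, eq_ratCast] at h2
        have e0 : ((f.coeff (0 + 1) : ℚ) : ℂ) = ((f.coeff ((1 : Fin 5) : ℕ) : ℚ) : ℂ) := rfl
        have e1 : ((f.coeff (1 + 1) : ℚ) : ℂ) = ((f.coeff ((2 : Fin 5) : ℕ) : ℚ) : ℂ) := rfl
        have e2 : ((f.coeff (2 + 1) : ℚ) : ℂ) = ((f.coeff ((3 : Fin 5) : ℕ) : ℚ) : ℂ) := rfl
        have e3 : ((f.coeff (3 + 1) : ℚ) : ℂ) = ((f.coeff ((4 : Fin 5) : ℕ) : ℚ) : ℂ) := rfl
        rw [e0, e1, e2, e3] at h2
        linear_combination h2
    have e2 := disc4_map (algebraMap ℚ ℂ) (fun k : Fin 5 => f.coeff k)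
    have e3 : disc4 (fun k : Fin 5 => ((f.coeff k : ℚ) : ℂ)) =
        algebraMap ℚ ℂ (disc4 (fun k : Fin 5 => f.coeff k)) := e2
    rw [e1] at e3
    exact (map_eq_zero (algebraMap ℚ ℂ)).mp e3.symm
  · by_contra hcon
    push Not at hcon
    apply hd
    have e3 : f.coeff ((3 : Fin 5) : ℕ) = 0 :=
      Polynomial.coeff_eq_zero_of_natDegree_lt hcon
    have e4 : f.coeff ((4 : Fin 5) : ℕ) = 0 :=
      Polynomial.coeff_eq_zero_of_natDegree_lt (lt_trans hcon (by norm_num))
    unfold disc4 rB rC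
    simp only [e3, e4]
    ring

/-- The heights of the doubling sequence grow for all but finitely many `z`. -/
theorem exists_height_exceptional {f : Polynomial ℚ} (h4 : f.natDegree ≤ 4)
    (hd : disc4 (fun k : Fin 5 => f.coeff k) ≠ 0) : ∃ T : Set ℚ, T.Finite ∧ ∀ z ∉ T,
      f.eval z ≠ 0 ∧ StrictMono (fun k => logHeight (wseq (tc f z) k)) ∧
        ∀ k, 0 < logHeight (wseq (tc f z) k) := by
  obtain ⟨hsep, h3⟩ := coprime_of_disc4 h4 hd
  have hf0 : f ≠ 0 := by rintro rfl; simp at h3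
  have htc0 : tc f 0 = fun k : Fin 5 => f.coeff k := by
    funext k; unfold tc; rw [Polynomial.taylor_zero]
  have hΔ : 4 * qI (tc f 0) ^ 3 - qJ (tc f 0) ^ 2 ≠ 0 := by
    rw [← disc4_eq_IJ, htc0]
    exact mul_ne_zero (by norm_num) hd
  obtain ⟨B, hB, hbound⟩ := exists_height_bound _ _ hΔ
  let P : ℚ → Polynomial ℚ := fun x => 3 * Polynomial.derivative f ^ 2 -
    f * (8 * Polynomial.hasseDeriv 2 f + 4 * Polynomial.C x)
  have hP : ∀ x, P x ≠ 0 := by
    intro x hx
    have h1 : f ∣ 3 * Polynomial.derivative f ^ 2 := ⟨8 * Polynomial.hasseDeriv 2 f +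
      4 * Polynomial.C x, by simp only [P] at hx; linear_combination hx⟩
    have hsep2 : IsCoprime f (Polynomial.derivative f ^ 2) := hsep.pow_right
    have h2 : f ∣ 3 := hsep2.dvd_of_dvd_mul_right h1
    have h3' : (3 : Polynomial ℚ) = Polynomial.C 3 := rfl
    rw [h3'] at h2
    have h4' := Polynomial.natDegree_le_of_dvd h2 (by simp)
    rw [Polynomial.natDegree_C] at h4'
    omega
  have hF : {x : ℚ | logHeight₁ x ≤ B}.Finite := NumberField.finite_setOfPred_logHeight₁_le ℚ B
  refine ⟨{z | f.eval z = 0} ∪ ⋃ x ∈ {x : ℚ | logHeight₁ x ≤ B}, {z | (P x).eval z = 0}, ?_, ?_⟩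
  · refine Set.Finite.union ?_ (hF.biUnion fun x _ => ?_)
    · exact Polynomial.finite_setOfPred_isRoot hf0
    · exact Polynomial.finite_setOfPred_isRoot (hP x)
  intro z hz
  rw [Set.mem_union, not_or] at hz
  obtain ⟨hz1, hz2⟩ := hz
  have hz1 : f.eval z ≠ 0 := hz1
  refine ⟨hz1, ?_⟩
  have hc0 : tc f z 0 ≠ 0 := by rw [tc_zero]; exact hz1
  have hlarge : B < logHeight (wseq (tc f z) 0) := by
    by_contra hcon
    push Not at hcon
    apply hz2
    have hw : wseq (tc f z) 0 = ![3 * tc f z 1 ^ 2 - 8 * tc f z 0 * tc f z 2, 4 * tc f z 0] := by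
      unfold wseq
      simp only [dseq]
      funext j
      fin_cases j
      · simp; ring
      · simp; ring
    rw [hw, ← logHeight₁_div_eq_logHeight] at hcon
    refine Set.mem_biUnion (x := (3 * tc f z 1 ^ 2 - 8 * tc f z 0 * tc f z 2) / (4 * tc f z 0))
      hcon ?_
    show (P _).eval z = 0
    simp only [P, Polynomial.eval_sub, Polynomial.eval_mul, Polynomial.eval_add,
      Polynomial.eval_pow, Polynomial.eval_C, Polynomial.eval_ofNat]
    have e0 : tc f z 0 = f.eval z := tc_zero f z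
    have e1 : tc f z 1 = (Polynomial.derivative f).eval z := by
      unfold tc; exact Polynomial.taylor_coeff_one ..
    have e2 : tc f z 2 = (Polynomial.hasseDeriv 2 f).eval z := by
      unfold tc; exact Polynomial.taylor_coeff ..
    rw [e0, e1, e2]
    field_simp
    ring
  exact hbound (tc f z) (qI_tc h4 z) (qJ_tc h4 z) hlarge

/-- NORTHCOTT AT A POINT: for all `z` for which the slice of `h` in the direction `j` is a nonzero
multiple of the fixed polynomial `c`, the point `z j` is not special if it is outside a finite set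
depending on `c`. -/
theorem exists_exceptional_at (c : Polynomial ℚ) (hc4 : c.natDegree ≤ 4)
    (hcd : disc4 (fun k : Fin 5 => c.coeff k) ≠ 0) : ∃ E : Finset ℚ, (∀ q, q ∉ E → c.eval q ≠ 0) ∧
      ∀ (h : MvPolynomial (Fin m) ℚ) (j : Fin m), h.degreeOf j ≤ 4 → ∀ z : Fin m → ℚ, z j ∉ E →
      ∀ κ : ℚ, κ ≠ 0 → (∀ x, MvPolynomial.eval (Function.update z j x) h = κ * c.eval x) →
      MvPolynomial.eval z (disc4 (tcf h j)) ≠ 0 ∧ ∀ N, MvPolynomial.eval z (gpoly h j N) ≠ 0 := by
  classical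
  obtain ⟨T, hT, hTz⟩ := exists_height_exceptional hc4 hcd
  refine ⟨hT.toFinset, fun q hq => (hTz q (by rwa [Set.Finite.mem_toFinset] at hq)).1,
    fun h j hdeg z hzE κ hκ hzc => ?_⟩
  rw [Set.Finite.mem_toFinset] at hzE
  obtain ⟨hz, hmono, hpos⟩ := hTz (z j) hzE
  -- Taylor coefficients
  have htc : (fun k => MvPolynomial.eval z (tcf h j k)) = fun k => κ * tc c (z j) k := by
    apply ev4_inj
    intro x
    have e0 : ev4 (fun k => κ * tc c (z j) k) x = κ * ev4 (tc c (z j)) x := by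
      simp only [ev4]; ring
    rw [ev4_tcf_rat h j hdeg, e0, ev4_tc hc4, hzc]
  have hc0 : tc c (z j) 0 ≠ 0 := by rw [tc_zero]; exact hz
  obtain ⟨hb, hab⟩ := dseq_ne hc0 hmono hpos
  have hmap : ∀ k, (MvPolynomial.eval z (dseq (tcf h j) k).1,
      MvPolynomial.eval z (dseq (tcf h j) k).2) =
      (κ ^ (2 * 4 ^ k) * (dseq (tc c (z j)) k).1, κ ^ (2 * 4 ^ k - 2) *
        (dseq (tc c (z j)) k).2) := by
    intro k
    rw [← dseq_smul, ← htc, dseq_map (MvPolynomial.eval z) (tcf h j) k]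
  have hmap1 : ∀ k, MvPolynomial.eval z (dseq (tcf h j) k).1 =
      κ ^ (2 * 4 ^ k) * (dseq (tc c (z j)) k).1 := fun k => congrArg Prod.fst (hmap k)
  have hmap2 : ∀ k, MvPolynomial.eval z (dseq (tcf h j) k).2 =
      κ ^ (2 * 4 ^ k - 2) * (dseq (tc c (z j)) k).2 := fun k => congrArg Prod.snd (hmap k)
  constructor
  · have e3 := disc4_map (MvPolynomial.eval z) (tcf h j)
    rw [← e3, htc, disc4_smul]
    have e4 : disc4 (tc c (z j)) = disc4 (tc c 0) := by
      refine disc4_shift (a := z j) fun x => ?_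
      rw [ev4_tc hc4, ev4_tc hc4, zero_add]
    have e2 : tc c 0 = fun k : Fin 5 => c.coeff k := by
      funext k; unfold tc; rw [Polynomial.taylor_zero]
    rw [e4, e2]; exact mul_ne_zero (pow_ne_zero _ hκ) hcd
  · intro N
    unfold gpoly
    rw [map_mul, map_mul, map_prod, map_prod]
    refine mul_ne_zero ?_ (mul_ne_zero ?_ ?_)
    · have := hzc (z j)
      rw [Function.update_eq_self] at this
      rw [this]; exact mul_ne_zero hκ hz
    · rw [Finset.prod_ne_zero_iff]
      intro k _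
      rw [hmap2]; exact mul_ne_zero (pow_ne_zero _ hκ) (hb k)
    · rw [Finset.prod_ne_zero_iff]
      intro i _
      rw [map_prod, Finset.prod_ne_zero_iff]
      intro k hk
      rw [map_sub, map_mul, map_mul, hmap1, hmap1, hmap2, hmap2]
      have h3 := hab i k (Finset.mem_range.mp hk)
      have e1 : 1 ≤ 4 ^ k := Nat.one_le_pow _ _ (by norm_num)
      have e2 : 1 ≤ 4 ^ i := Nat.one_le_pow _ _ (by norm_num)
      obtain ⟨n, hn⟩ : ∃ n, 2 * 4 ^ k = n + 2 := ⟨2 * 4 ^ k - 2, by omega⟩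
      obtain ⟨n', hn'⟩ : ∃ n, 2 * 4 ^ i = n + 2 := ⟨2 * 4 ^ i - 2, by omega⟩
      rw [hn, hn']
      simp only [Nat.add_sub_cancel]
      have h4 : κ ^ (n + n' + 2) ≠ 0 := pow_ne_zero _ hκ
      intro h5
      apply h3
      apply mul_left_cancel₀ h4
      linear_combination h5

/-- THE EXCEPTIONAL SET OF A QUARTIC VARIABLE. -/
theorem exists_exceptional {f : MvPolynomial (Fin m) ℚ} (hf : f ≠ 0) {j : Fin m}
    (h4 : f.degreeOf j ≤ 4) :
    ∃ (E : Finset ℚ) (g h : MvPolynomial (Fin m) ℚ), f = g ^ 2 * h ∧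
      (h.degreeOf j ≤ 2 ∨ (h.degreeOf j ≤ 4 ∧ ∃ z₁ : Fin m → ℚ, ∀ p, p ∉ E →
        MvPolynomial.eval (Function.update z₁ j p) (disc4 (tcf h j)) ≠ 0 ∧
        ∀ N, MvPolynomial.eval (Function.update z₁ j p) (gpoly h j N) ≠ 0)) := by
  classical
  obtain ⟨g, h, hgh, hsq⟩ := exists_sq_mul_squarefree f hf
  have hg0 : g ≠ 0 := by rintro rfl; apply hf; rw [hgh]; ring
  have hh0 : h ≠ 0 := hsq.ne_zero
  have hdeg : h.degreeOf j ≤ 4 := by
    have := h4
    rw [hgh, MvPolynomial.degreeOf_mul_eq (pow_ne_zero 2 hg0) hh0] at this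
    omega
  by_cases h2 : h.degreeOf j ≤ 2
  · exact ⟨∅, g, h, hgh, Or.inl h2⟩
  have hdisc := disc_tcf_ne_zero hsq j (by omega) hdeg
  obtain ⟨z₁, hz₁⟩ : ∃ z, MvPolynomial.eval z (disc4 (tcf h j)) ≠ 0 := by
    by_contra hcon
    push Not at hcon
    exact hdisc (MvPolynomial.funext fun z => by rw [hcon z, map_zero])
  set c := slice h z₁ j with hc
  have hc4 : c.natDegree ≤ 4 := slice_natDegree h z₁ j 4 hdeg
  have hcd : disc4 (fun k : Fin 5 => c.coeff k) ≠ 0 := by
    have e1 : (fun k => MvPolynomial.eval (Function.update z₁ j 0) (tcf h j k)) =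
        fun k : Fin 5 => c.coeff k := by
      apply ev4_inj
      intro x
      rw [ev4_tcf_rat h j hdeg, ← eval_eq_ev4 hc4, hc, slice_eval, Function.update_self,
        Function.update_idem, zero_add]
    rw [← e1]
    have e3 := disc4_map (MvPolynomial.eval (Function.update z₁ j 0)) (tcf h j)
    rw [e3]
    have e4 := disc_update (K := ℚ) hdeg z₁ 0
    rw [MvPolynomial.aeval_eq_eval, MvPolynomial.aeval_eq_eval] at e4
    rw [e4]
    exact hz₁
  obtain ⟨E, -, hE⟩ := exists_exceptional_at (m := m) c hc4 hcd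
  refine ⟨E, g, h, hgh, Or.inr ⟨hdeg, z₁, fun p hp => ?_⟩⟩
  refine hE h j hdeg (Function.update z₁ j p) (by rw [Function.update_self]; exact hp) 1
    one_ne_zero fun x => ?_
  rw [Function.update_idem, hc, slice_eval, one_mul]

end Pool.Agent.Lib.MP42
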