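import Pool.Agent.Lib.MP_42de19_nt.QF.Glob
import Pool.Agent.Lib.MP_42de19_nt.QF.North
import Pool.Agent.Lib.MP_42de19_nt.QF.Class

/-!
Induction over the quartic variables: the closure of a saturated set of rational points.
-/

set_option autoImplicit false

namespace Pool.Agent.Lib.MP42

open Set Topology Filter

variable {m : ℕ}

theorem Cls.locData {T : Finset (Fin m)} {G : MvPolynomial (Fin m) ℚ} (h : Cls T G) (hG : G ≠ 0)
    (h4 : ∀ i, G.degreeOf i ≤ 4) : ∃ E : Finset ℚ, LocData T E G := by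
  classical
  obtain ⟨n, F, hF, huniq, hadm⟩ := h
  have hF0 : ∀ k, F k ≠ 0 := by
    intro i hi
    apply hG
    rw [hF]
    exact Finset.prod_eq_zero (Finset.mem_univ i) hi
  have hdeg : ∀ k j, (F k).degreeOf j ≤ 4 := by
    intro k j
    have h1 := h4 j
    rw [hF, MvPolynomial.degreeOf_prod_eq _ _ (fun i _ => hF0 i)] at h1
    exact (Finset.single_le_sum (f := fun i => (F i).degreeOf j) (fun i _ => Nat.zero_le _)
      (Finset.mem_univ k)).trans h1
  choose E₁ g h hgh hcase using fun (k : Fin n) (j : Fin m) => exists_exceptional (hF0 k)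
    (hdeg k j)
  have h2 : ∀ (k : Fin n) (J : Finset (Fin m)), ∃ E : Finset ℚ, J ⊆ T →
      (∀ j ∈ J, (F k).degreeOf j ≠ 0) → 2 ≤ J.card → ∀ τ : Fin m → ℚ, (∀ j ∈ J, τ j ∉ E) →
      ∃ w : Fin m → ℂ, (∀ i ∈ J, w i = (τ i : ℂ)) ∧ (MvPolynomial.aeval w (F k) : ℂ) = 0 ∧
        ∃ j ∈ J, (MvPolynomial.aeval w (MvPolynomial.pderiv j (F k)) : ℂ) ≠ 0 := by
    intro k J
    by_cases hJ : J ⊆ T ∧ (∀ j ∈ J, (F k).degreeOf j ≠ 0) ∧ 2 ≤ J.card
    · obtain ⟨h1, h2, h3⟩ := hJ
      obtain ⟨E, hE⟩ := hadm k J ∅ h1 (Finset.empty_subset _) (Finset.disjoint_empty_right _)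
        (fun j hj => MvPolynomial.mem_vars_iff_degreeOf_ne_zero.mpr (h2 j hj)) h3 0
      refine ⟨E, fun _ _ _ τ hτ => ?_⟩
      obtain ⟨w, -, hw⟩ := hE τ hτ
      exact ⟨w, hw⟩
    · exact ⟨∅, fun h1 h2 h3 => absurd ⟨h1, h2, h3⟩ hJ⟩
  choose E₂ hE₂ using h2
  refine ⟨(Finset.univ.biUnion fun k => Finset.univ.biUnion fun j => E₁ k j) ∪
    (Finset.univ.biUnion fun k => Finset.univ.biUnion fun J => E₂ k J), n, F, hF,
    fun j hj k k' hk hk' => huniq j hj k k' (MvPolynomial.mem_vars_iff_degreeOf_ne_zero.mpr hk)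
      (MvPolynomial.mem_vars_iff_degreeOf_ne_zero.mpr hk'), fun k j _ => hdeg k j,
    fun k j _ => ?_, fun k J hJ hJF hc τ hτ => hE₂ k J hJ hJF hc τ fun j hj hmem => ?_⟩
  · rcases hcase k j with h5 | ⟨h5, z₁, h6⟩
    · exact ⟨g k j, h k j, 0, hgh k j, Or.inl h5⟩
    · refine ⟨g k j, h k j, z₁, hgh k j, Or.inr ⟨h5, fun p hp => h6 p fun hmem => hp ?_⟩⟩
      refine Finset.mem_union_left _ (Finset.mem_biUnion.mpr ⟨k, Finset.mem_univ _, ?_⟩)
      exact Finset.mem_biUnion.mpr ⟨j, Finset.mem_univ _, hmem⟩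
  · refine hτ j hj (Finset.mem_union_right _ (Finset.mem_biUnion.mpr ⟨k, Finset.mem_univ _, ?_⟩))
    exact Finset.mem_biUnion.mpr ⟨J, Finset.mem_univ _, hmem⟩

theorem vars_frz {s : Finset (Fin m)} {P : Fin m → ℚ} {F : MvPolynomial (Fin m) ℚ} {j : Fin m}
    (h : j ∈ (frz s P F).vars) : j ∈ F.vars := by
  rw [MvPolynomial.mem_vars_iff_degreeOf_ne_zero] at h ⊢
  intro h0
  have h1 := degreeOf_frz_le s P F j
  rw [h0] at h1
  split_ifs at h1 <;> omega

theorem Adm.frz {T : Finset (Fin m)} {F : MvPolynomial (Fin m) ℚ} (h : Adm T F) {s : Fin m}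
    (hsT : s ∈ T) (P : Fin m → ℚ) : Adm (T.erase s) (frz {s} P F) := by
  classical
  intro J S hJ hS hJS hJF hc σ
  have hsJ : s ∉ J := fun h => Finset.ne_of_mem_erase (hJ h) rfl
  have hsS : s ∉ S := fun h => Finset.ne_of_mem_erase (hS h) rfl
  obtain ⟨E, hE⟩ := h J (insert s S) (hJ.trans (Finset.erase_subset _ _))
    (Finset.insert_subset hsT (hS.trans (Finset.erase_subset _ _)))
    (Finset.disjoint_insert_right.mpr ⟨hsJ, hJS⟩) (fun j hj => vars_frz (hJF j hj)) hc
    (Function.update σ s (P s))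
  refine ⟨E, fun τ hτ => ?_⟩
  obtain ⟨w, hwS, hwJ, hw0, j, hj, hw1⟩ := hE τ hτ
  have hws : w s = (P s : ℂ) := by
    rw [hwS s (Finset.mem_insert_self _ _), Function.update_self]
  have hw : (fun i => if i ∈ ({s} : Finset (Fin m)) then algebraMap ℚ ℂ (P i) else w i) = w := by
    funext i
    by_cases hi : i = s
    · subst hi; rw [if_pos (by simp), hws]; rfl
    · rw [if_neg (by simpa using hi)]
  have hjs : j ∉ ({s} : Finset (Fin m)) := by
    rw [Finset.mem_singleton]; rintro rfl; exact hsJ hj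
  refine ⟨w, fun i hi => ?_, hwJ, ?_, j, hj, ?_⟩
  · have his : i ≠ s := by rintro rfl; exact hsS hi
    rw [hwS i (Finset.mem_insert_of_mem hi), Function.update_of_ne his]
  · rw [aeval_frz, hw]; exact hw0
  · rw [pderiv_frz P hjs, aeval_frz, hw]; exact hw1

theorem Cls.frz {T : Finset (Fin m)} {G : MvPolynomial (Fin m) ℚ} (h : Cls T G) {s : Fin m}
    (hsT : s ∈ T) (P : Fin m → ℚ) : Cls (T.erase s) (frz {s} P G) := by
  obtain ⟨n, F, hF, huniq, hadm⟩ := h
  refine ⟨n, fun k => MP42.frz {s} P (F k), by rw [hF, map_prod], fun j hj k k' hk hk' => ?_,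
    fun k => (hadm k).frz hsT P⟩
  exact huniq j (Finset.mem_of_mem_erase hj) k k' (vars_frz hk) (vars_frz hk')

theorem Cls.one (T : Finset (Fin m)) : Cls T (1 : MvPolynomial (Fin m) ℚ) :=
  ⟨0, fun _ => 1, by simp, fun _ _ k => k.elim0, fun k => k.elim0⟩

theorem closure_slice {A A' : Set (Fin m → ℚ)} {j : Fin m} {e : ℚ}
    (hA' : ∀ z, z ∈ A' ↔ Function.update z j e ∈ A) :
    closure (castSet {z | z ∈ A ∧ z j = e}) = closure (castSet A') ∩ {x | x j = (e : ℝ)} := by
  apply Set.Subset.antisymm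
  · refine closure_minimal ?_ ?_
    · rintro x ⟨z, ⟨hz, hzj⟩, hx⟩
      refine ⟨subset_closure ⟨z, ?_, hx⟩, ?_⟩
      · rw [hA', ← hzj, Function.update_eq_self]; exact hz
      · rw [mem_ofPred_eq, hx j, hzj]
    · exact isClosed_closure.inter (isClosed_eq (continuous_apply j) continuous_const)
  · rintro x ⟨hx, hxj⟩
    rw [Metric.mem_closure_iff] at hx ⊢
    intro ε hε
    obtain ⟨w, ⟨z, hz, hw⟩, hd⟩ := hx ε hε
    refine ⟨fun i => ((Function.update z j e i : ℚ) : ℝ), ⟨Function.update z j e,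
      ⟨(hA' z).mp hz, by rw [Function.update_self]⟩, fun i => rfl⟩, ?_⟩
    rw [dist_pi_lt_iff hε] at hd ⊢
    intro i
    by_cases hi : i = j
    · subst hi
      rw [Function.update_self, ← hxj, dist_self]; exact hε
    · rw [Function.update_of_ne hi, ← hw i]; exact hd i

theorem sa_coord (j : Fin m) (e : ℚ) : SA (evR m) {x | x j = (e : ℝ)} := by
  have : {x : Fin m → ℝ | x j = (e : ℝ)} =
      {x | evR m (MvPolynomial.X j - MvPolynomial.C e) x = 0} := by
    ext x
    have h1 : evR m (MvPolynomial.X j - MvPolynomial.C e) x = x j - (e : ℝ) := by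
      rw [evR_apply, map_sub, MvPolynomial.aeval_X, MvPolynomial.aeval_C]; rfl
    rw [mem_ofPred_eq, mem_ofPred_eq, h1, sub_eq_zero]
  rw [this]; exact SA.eq_zero _

/-- THE INDUCTION. -/
theorem sa_closure_class {r : ℕ} (b : Fin m → Fin r) : ∀ (n : ℕ) (T : Finset (Fin m)),
    T.card = n → ∀ G : Fin r → MvPolynomial (Fin m) ℚ,
    (∀ a i, (G a).degreeOf i ≠ 0 → b i = a) → (∀ a i, i ∉ T → (G a).degreeOf i ≤ 2) →
    (∀ a i, (G a).degreeOf i ≤ 4) → (∀ a, Cls T (G a)) → ∀ A : Set (Fin m → ℚ),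
    (∀ z ∈ A, ∀ a, MvPolynomial.eval z (G a) ≠ 0) → (∀ z ∈ A, ∀ z', Rel G z z' → z' ∈ A) →
    SA (evR m) (closure (castSet A)) := by
  classical
  intro n
  induction n with
  | zero =>
    intro T hT G hb h2 h4 hPS A hne hsat
    have hT0 : T = ∅ := Finset.card_eq_zero.mp hT
    subst hT0
    have hl : ∀ a, LocData (∅ : Finset (Fin m)) ∅ (G a) := fun a =>
      ⟨1, fun _ => G a, by simp, fun j hj => absurd hj (by simp), fun k j hj => absurd hj (by simp),
        fun k j hj => absurd hj (by simp), fun k J hJ _ hc => by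
          rw [Finset.subset_empty.mp hJ] at hc
          simp at hc⟩
    have := sa_closure_generic G b hb ∅ (fun _ => ∅) h4 (fun a P κ hP hpos hy =>
      local_open_qf (hl a) (h2 a) (fun j hj => absurd hj (by simp)) hpos hy) A hne hsat
    simpa using this
  | succ n ih =>
    intro T hT G hb h2 h4 hPS A hne hsat
    by_cases hA : A = ∅
    · have : castSet A = ∅ := by
        rw [Set.eq_empty_iff_forall_notMem]
        rintro x ⟨z, hz, -⟩
        rw [hA] at hz
        exact hz
      rw [this, closure_empty]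
      exact SA.empty
    obtain ⟨z₀, hz₀⟩ := Set.nonempty_iff_ne_empty.mpr hA
    have hG0 : ∀ a, G a ≠ 0 := by
      intro a h
      apply hne z₀ hz₀ a
      rw [h, map_zero]
    choose E' hE' using fun a => (hPS a).locData (hG0 a) (h4 a)
    let E₀ : Finset ℚ := Finset.univ.biUnion fun a => E' a
    let E : Fin m → Finset ℚ := fun _ => E₀
    have hgen := sa_closure_generic G b hb T E h4 (fun a P κ hP hpos hy =>
      local_open_qf ((hE' a).mono (E' := E₀) (by
        intro q hq
        exact Finset.mem_biUnion.mpr ⟨a, Finset.mem_univ _, hq⟩)) (h2 a) (fun j hj => hP j hj)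
        hpos hy) A hne hsat
    -- the decomposition
    have hdecomp : castSet A = castSet {z | z ∈ A ∧ ∀ j ∈ T, z j ∉ E j} ∪
        ⋃ j ∈ T, ⋃ e ∈ E j, castSet {z | z ∈ A ∧ z j = e} := by
      ext x
      constructor
      · rintro ⟨z, hz, hx⟩
        by_cases h : ∀ j ∈ T, z j ∉ E j
        · exact Or.inl ⟨z, ⟨hz, h⟩, hx⟩
        · push Not at h
          obtain ⟨j, hj, hzj⟩ := h
          right
          simp only [mem_iUnion]
          exact ⟨j, hj, z j, hzj, z, ⟨hz, rfl⟩, hx⟩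
      · rintro (⟨z, hz, hx⟩ | h)
        · exact ⟨z, hz.1, hx⟩
        · simp only [mem_iUnion] at h
          obtain ⟨j, hj, e, he, z, hz, hx⟩ := h
          exact ⟨z, hz.1, hx⟩
    rw [hdecomp, closure_union, Finset.closure_biUnion]
    refine hgen.union (SA.biUnion_finset T _ fun j hj => ?_)
    rw [Finset.closure_biUnion]
    refine SA.biUnion_finset (E j) _ fun e he => ?_
    -- one slice
    set P : Fin m → ℚ := fun _ => e with hP
    have hval : ∀ z a, MvPolynomial.eval z (frz {j} P (G a)) =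
        MvPolynomial.eval (Function.update z j e) (G a) := by
      intro z a; rw [eval_frz_one]
    rw [closure_slice (A := A) (A' := {z | Function.update z j e ∈ A}) (fun z => Iff.rfl)]
    refine SA.inter ?_ (sa_coord j e)
    refine ih (T.erase j) (by rw [Finset.card_erase_of_mem hj, hT]; rfl)
      (fun a => frz {j} P (G a)) ?_ ?_ ?_ ?_ _ ?_ ?_
    · intro a i hi
      apply hb
      intro h0
      apply hi
      have := degreeOf_frz_le {j} P (G a) i
      rw [h0] at this
      split_ifs at this <;> omega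
    · intro a i hi
      have h1 := degreeOf_frz_le {j} P (G a) i
      by_cases hij : i = j
      · rw [if_pos (by simp [hij])] at h1
        omega
      · rw [if_neg (by simpa using hij)] at h1
        refine h1.trans (h2 a i fun hiT => hi (Finset.mem_erase.mpr ⟨hij, hiT⟩))
    · intro a i
      have h1 := degreeOf_frz_le {j} P (G a) i
      have h2 := h4 a i
      split_ifs at h1 <;> omega
    · intro a
      exact (hPS a).frz hj P
    · intro z hz a
      rw [hval]
      exact hne _ hz a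
    · intro z hz z' hrel
      refine hsat _ hz _ fun a => ?_
      obtain ⟨l, hl, h⟩ := hrel a
      rw [hval, hval] at h
      exact ⟨l, hl, h⟩

end Pool.Agent.Lib.MP42
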