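import Pool.Agent.Lib.MP_42de19_nt.QF.Simple

/-!
Openness of the closure near a rational point all of whose quartic coordinates are not exceptional.
-/

set_option autoImplicit false

namespace Pool.Agent.Lib.MP42

open Set Topology Filter

variable {m : ℕ}

theorem interior_frz_univ {G : MvPolynomial (Fin m) ℚ} {P : Fin m → ℚ}
    (hy : ∃ y : ℚ, y ^ 2 = MvPolynomial.eval P G) (x : Fin m → ℝ) :
    x ∈ interior {x | SqLim (frz Finset.univ P G) x} := by
  have : {x | SqLim (frz Finset.univ P G) x} = Set.univ := by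
    apply Set.eq_univ_of_forall
    intro x ε hε
    have h1 : ∀ j, ∃ q : ℚ, |(q : ℝ) - x j| < ε := fun j => by
      obtain ⟨q, h1, h2⟩ := exists_rat_btwn (show x j - ε < x j + ε by linarith)
      exact ⟨q, by rw [abs_lt]; constructor <;> linarith⟩
    choose z hz using h1
    obtain ⟨y, hy⟩ := hy
    refine ⟨z, hz, y, ?_⟩
    rw [hy, eval_frz]
    congr 2
    funext i
    simp
  rw [this, interior_univ]
  trivial

/-- FREEING A VARIABLE with a simple zero of a factor. -/
theorem free_step {G F r : MvPolynomial (Fin m) ℚ} {j : Fin m} {P : Fin m → ℚ} {w : Fin m → ℂ}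
    (hG : G = r * F) (hP : 0 < MvPolynomial.eval P G) (hr : r.degreeOf j = 0)
    (hF4 : F.degreeOf j ≤ 4) (hwj : w j = (P j : ℂ)) (hw0 : (MvPolynomial.aeval w F : ℂ) = 0)
    (hw1 : (MvPolynomial.aeval w (MvPolynomial.pderiv j F) : ℂ) ≠ 0)
    (h0 : (fun i => (P i : ℝ)) ∈ interior {x | SqLim (frz {j} P G) x}) :
    (fun i => (P i : ℝ)) ∈ interior {x | SqLim G x} := by
  classical
  have hFP : MvPolynomial.eval P F ≠ 0 := by
    intro h; rw [hG, map_mul, h, mul_zero] at hP; exact lt_irrefl _ hP
  have hF0 : F ≠ 0 := by rintro rfl; exact hFP (map_zero _)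
  obtain ⟨g, h, hgh, hsq⟩ := exists_sq_mul_squarefree F hF0
  have hg0 : g ≠ 0 := by rintro rfl; apply hF0; rw [hgh]; ring
  have hh4 : h.degreeOf j ≤ 4 := by
    have := hF4
    rw [hgh, MvPolynomial.degreeOf_mul_eq (pow_ne_zero 2 hg0) hsq.ne_zero] at this
    omega
  refine step_unfreeze (g := g) (r := r) (h := h) (j := j) (by rw [hG, hgh]; ring) hP hr h0 ?_
  by_cases h2 : h.degreeOf j ≤ 2
  · exact Or.inl h2
  refine Or.inr ⟨hh4, disc_tcf_ne_zero hsq j (by omega) hh4, fun N => ?_⟩
  obtain ⟨hh0, hh1⟩ := simple_zero_sq hgh hw0 hw1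
  have hcof := gcof_ne (D := h) (i := j) (w := w) (by
    rw [tcf_zero h j hh4]; exact hh0) (by
    have e1 : tcf h j 1 = MvPolynomial.pderiv j h := tay_coeff_one h j
    rw [e1]; exact hh1) N
  rw [gpoly_eq, map_mul]
  refine mul_ne_zero ?_ ?_
  · intro h0
    apply hFP
    have h5 := eval_self_frz {j} P h
    rw [h0, map_zero] at h5
    rw [hgh, map_mul, ← h5, mul_zero]
  · intro h0
    apply hcof
    have h5 := aeval_frz {j} P (gcof h j N) w
    rw [h0, map_zero] at h5
    have h6 : (fun i => if i ∈ ({j} : Finset (Fin m)) then algebraMap ℚ ℂ (P i) else w i) = w := by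
      funext i
      by_cases hi : i = j
      · subst hi
        rw [if_pos (by simp), hwj]
        rfl
      · rw [if_neg (by simpa using hi)]
    rw [h6] at h5
    exact h5.symm

/-- The data of the local theorem: `G` is a product of factors without common variables in `T`;
outside the exceptional set `E` the last frozen variable of `T` in a factor and one of the at least
two frozen variables of `T` in a factor can be freed. -/
def LocData (T : Finset (Fin m)) (E : Finset ℚ) (G : MvPolynomial (Fin m) ℚ) : Prop :=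
  ∃ (n : ℕ) (F : Fin n → MvPolynomial (Fin m) ℚ), G = ∏ k, F k ∧
    (∀ j ∈ T, ∀ k k', (F k).degreeOf j ≠ 0 → (F k').degreeOf j ≠ 0 → k = k') ∧
    (∀ k, ∀ j ∈ T, (F k).degreeOf j ≤ 4) ∧
    (∀ k, ∀ j ∈ T, ∃ (g h : MvPolynomial (Fin m) ℚ) (z₁ : Fin m → ℚ), F k = g ^ 2 * h ∧
      (h.degreeOf j ≤ 2 ∨ (h.degreeOf j ≤ 4 ∧ ∀ p, p ∉ E →
        MvPolynomial.eval (Function.update z₁ j p) (disc4 (tcf h j)) ≠ 0 ∧
        ∀ N, MvPolynomial.eval (Function.update z₁ j p) (gpoly h j N) ≠ 0))) ∧
    (∀ k, ∀ J ⊆ T, (∀ j ∈ J, (F k).degreeOf j ≠ 0) → 2 ≤ J.card → ∀ τ : Fin m → ℚ,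
      (∀ j ∈ J, τ j ∉ E) → ∃ w : Fin m → ℂ, (∀ i ∈ J, w i = (τ i : ℂ)) ∧
        (MvPolynomial.aeval w (F k) : ℂ) = 0 ∧
        ∃ j ∈ J, (MvPolynomial.aeval w (MvPolynomial.pderiv j (F k)) : ℂ) ≠ 0)

theorem LocData.mono {T : Finset (Fin m)} {E E' : Finset ℚ} {G : MvPolynomial (Fin m) ℚ}
    (h : LocData T E G) (hE : E ⊆ E') : LocData T E' G := by
  obtain ⟨n, F, hGF, huniq, hF4, hN, hC⟩ := h
  refine ⟨n, F, hGF, huniq, hF4, fun k j hj => ?_, fun k J hJ hJF hc τ hτ =>
    hC k J hJ hJF hc τ fun j hj h => hτ j hj (hE h)⟩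
  obtain ⟨g, h, z₁, hgh, hcase⟩ := hN k j hj
  refine ⟨g, h, z₁, hgh, ?_⟩
  rcases hcase with h1 | ⟨h1, h2⟩
  · exact Or.inl h1
  · exact Or.inr ⟨h1, fun p hp => h2 p fun h => hp (hE h)⟩

theorem degreeOf_prod_zero {ι : Type*} (s : Finset ι) (F : ι → MvPolynomial (Fin m) ℚ)
    (j : Fin m) (h : ∀ k ∈ s, (F k).degreeOf j = 0) : (∏ k ∈ s, F k).degreeOf j = 0 := by
  have h1 := MvPolynomial.degreeOf_prod_le j s F
  rw [Finset.sum_eq_zero h] at h1
  omega

theorem degreeOf_C_mul_zero (κ : ℚ) {G : MvPolynomial (Fin m) ℚ} {j : Fin m}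
    (h : G.degreeOf j = 0) : (MvPolynomial.C κ * G).degreeOf j = 0 := by
  have h1 := MvPolynomial.degreeOf_C_mul_le G j κ
  omega

/-- LOCAL OPENNESS. -/
theorem local_open_qf {T : Finset (Fin m)} {E : Finset ℚ} {G : MvPolynomial (Fin m) ℚ}
    (hD : LocData T E G) (h2 : ∀ i, i ∉ T → G.degreeOf i ≤ 2) {P : Fin m → ℚ}
    (hE : ∀ j ∈ T, P j ∉ E) {κ : ℚ} (hpos : 0 < MvPolynomial.eval P (MvPolynomial.C κ * G))
    (hy : ∃ y : ℚ, y ^ 2 = MvPolynomial.eval P (MvPolynomial.C κ * G)) :
    (fun i => (P i : ℝ)) ∈ interior {x | SqLim (MvPolynomial.C κ * G) x} := by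
  classical
  set D := MvPolynomial.C κ * G with hDdef
  have h2D : ∀ i, i ∉ T → D.degreeOf i ≤ 2 := fun i hi =>
    (MvPolynomial.degreeOf_C_mul_le G i κ).trans (h2 i hi)
  -- phase one
  have ph1 : ∀ K : Finset (Fin m), K ⊆ Finset.univ \ T →
      (fun i => (P i : ℝ)) ∈ interior {x | SqLim (frz (Finset.univ \ K) P D) x} := by
    intro K
    induction K using Finset.induction_on with
    | empty =>
      intro _
      rw [Finset.sdiff_empty]
      exact interior_frz_univ hy _
    | insert j K hj ih =>
      intro hK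
      have hjT : j ∉ T := by
        have := hK (Finset.mem_insert_self j K)
        simpa using this
      have ih' := ih ((Finset.subset_insert j K).trans hK)
      set s := Finset.univ \ insert j K with hs
      have hjs : j ∉ s := by simp [hs]
      have hunion : {j} ∪ s = Finset.univ \ K := by
        ext i
        simp only [hs, Finset.mem_union, Finset.mem_singleton, Finset.mem_sdiff, Finset.mem_univ,
          true_and, Finset.mem_insert, not_or]
        by_cases hi : i = j
        · subst hi; simp [hj]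
        · simp [hi]
      refine step_unfreeze (g := 1) (r := 1) (h := frz s P D) (j := j) (by ring)
        (by rw [eval_self_frz]; exact hpos) (by rw [MvPolynomial.degreeOf_one]) ?_ (Or.inl ?_)
      · rw [frz_frz, hunion]; exact ih'
      · refine (degreeOf_frz_le s P D j).trans ?_
        rw [if_neg hjs]; exact h2D j hjT
  have h1 := ph1 (Finset.univ \ T) (Finset.Subset.refl _)
  have e1 : (Finset.univ \ (Finset.univ \ T) : Finset (Fin m)) = T := by simp
  rw [e1] at h1
  -- phase two
  obtain ⟨n, F, hGF, huniq, hF4, hN, hC⟩ := hD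
  have ph2 : ∀ (c : ℕ) (J : Finset (Fin m)), J.card = c → J ⊆ T →
      (fun i => (P i : ℝ)) ∈ interior {x | SqLim (frz J P D) x} →
      (fun i => (P i : ℝ)) ∈ interior {x | SqLim D x} := by
    intro c
    induction c with
    | zero =>
      intro J hJ _ h
      rw [Finset.card_eq_zero.mp hJ] at h
      have e2 : frz ∅ P D = D := frz_eq_self fun i hi => by simp at hi
      rwa [e2] at h
    | succ c ih =>
      intro J hJ hJT hJ0
      -- it is enough to free one variable
      have hfree : ∀ j ∈ J, ((fun i => (P i : ℝ)) ∈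
          interior {x | SqLim (frz {j} P (frz (J.erase j) P D)) x} →
          (fun i => (P i : ℝ)) ∈ interior {x | SqLim (frz (J.erase j) P D) x}) →
          (fun i => (P i : ℝ)) ∈ interior {x | SqLim D x} := by
        intro j hj h
        refine ih (J.erase j) (by rw [Finset.card_erase_of_mem hj, hJ]; rfl)
          ((Finset.erase_subset _ _).trans hJT) (h ?_)
        have hunion : {j} ∪ J.erase j = J := by
          ext i
          simp only [Finset.mem_union, Finset.mem_singleton, Finset.mem_erase]
          by_cases hi : i = j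
          · subst hi; simp [hj]
          · simp [hi]
        rw [frz_frz, hunion]
        exact hJ0
      obtain ⟨j₀, hj₀⟩ : J.Nonempty := by
        rw [← Finset.card_pos]; omega
      by_cases hex : ∃ k, (F k).degreeOf j₀ ≠ 0
      swap
      · -- a variable that does not occur
        push Not at hex
        refine hfree j₀ hj₀ fun h => ?_
        refine step_unfreeze (g := 1) (r := 1) (h := frz (J.erase j₀) P D) (j := j₀) (by ring)
          (by rw [eval_self_frz]; exact hpos) (by rw [MvPolynomial.degreeOf_one]) h (Or.inl ?_)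
        refine (degreeOf_frz_le _ P D j₀).trans ?_
        rw [if_neg (by simp)]
        have : D.degreeOf j₀ = 0 := by
          rw [hDdef, hGF]
          exact degreeOf_C_mul_zero κ (degreeOf_prod_zero _ _ _ fun k _ => hex k)
        omega
      obtain ⟨k, hk⟩ := hex
      -- the other factors
      have hDk : ∀ s : Finset (Fin m), frz s P D =
          (MvPolynomial.C κ * ∏ i ∈ Finset.univ.erase k, frz s P (F i)) * frz s P (F k) := by
        intro s
        have hCκ : frz s P (MvPolynomial.C κ : MvPolynomial (Fin m) ℚ) = MvPolynomial.C κ := by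
          unfold frz; rw [MvPolynomial.aeval_C]; rfl
        rw [hDdef, hGF, map_mul, hCκ, map_prod, ← Finset.mul_prod_erase _ _ (Finset.mem_univ k)]
        ring
      have hr : ∀ (s : Finset (Fin m)) (j : Fin m), j ∈ J → (F k).degreeOf j ≠ 0 →
          (MvPolynomial.C κ * ∏ i ∈ Finset.univ.erase k, frz s P (F i)).degreeOf j = 0 := by
        intro s j hj hkj
        refine degreeOf_C_mul_zero κ (degreeOf_prod_zero _ _ _ fun i hi => ?_)
        have h3 : (F i).degreeOf j = 0 := by
          by_contra hne
          exact Finset.ne_of_mem_erase hi (huniq j (hJT hj) i k hne hkj)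
        have h4 := degreeOf_frz_le s P (F i) j
        rw [h3] at h4
        split_ifs at h4 <;> omega
      set Jk := J.filter fun i => (F k).degreeOf i ≠ 0 with hJk
      have hj₀k : j₀ ∈ Jk := Finset.mem_filter.mpr ⟨hj₀, hk⟩
      rcases Nat.lt_or_ge Jk.card 2 with hcard | hcard
      · -- the last variable of the factor
        have hone : ∀ i ∈ J, i ≠ j₀ → (F k).degreeOf i = 0 := by
          intro i hi hij
          by_contra hne
          have hi' : i ∈ Jk := Finset.mem_filter.mpr ⟨hi, hne⟩
          have : Jk.card ≤ 1 := by omega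
          exact hij (Finset.card_le_one.mp this i hi' j₀ hj₀k)
        refine hfree j₀ hj₀ fun h => ?_
        have hFk : frz (J.erase j₀) P (F k) = F k := frz_eq_self fun i hi =>
          hone i (Finset.mem_of_mem_erase hi) (Finset.ne_of_mem_erase hi)
        obtain ⟨g, h', z₁, hgh, hcase⟩ := hN k j₀ (hJT hj₀)
        refine step_unfreeze (g := g)
          (r := MvPolynomial.C κ * ∏ i ∈ Finset.univ.erase k, frz (J.erase j₀) P (F i))
          (h := h') (j := j₀) ?_ (by rw [eval_self_frz]; exact hpos) (hr _ j₀ hj₀ hk) h ?_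
        · rw [hDk, hFk, hgh]; ring
        · rcases hcase with h5 | ⟨h5, h6⟩
          · exact Or.inl h5
          · obtain ⟨h7, h8⟩ := h6 (P j₀) (hE j₀ (hJT hj₀))
            refine Or.inr ⟨h5, ?_, fun N h9 => ?_⟩
            · intro h9; rw [h9, map_zero] at h7; exact h7 rfl
            · apply h8 N
              have e3 := eval_frz_one j₀ P (gpoly h' j₀ N) z₁
              rw [h9, map_zero] at e3
              exact e3.symm
      · -- a simple zero
        obtain ⟨w, hwJ, hw0, j, hjk, hw1⟩ := hC k Jk ((Finset.filter_subset _ _).trans hJT)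
          (fun i hi => (Finset.mem_filter.mp hi).2) hcard P
          (fun i hi => hE i (hJT (Finset.mem_filter.mp hi).1))
        obtain ⟨hjJ, hkj⟩ := Finset.mem_filter.mp hjk
        refine hfree j hjJ fun h => ?_
        set s := J.erase j with hs
        have hjs : j ∉ s := by simp [hs]
        have hF'4 : (frz s P (F k)).degreeOf j ≤ 4 := by
          refine (degreeOf_frz_le s P (F k) j).trans ?_
          rw [if_neg hjs]; exact hF4 k j (hJT hjJ)
        have hval : ∀ x : ℂ, (MvPolynomial.aeval (Function.update w j x) (frz s P (F k)) : ℂ) =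
            MvPolynomial.aeval (Function.update w j x) (F k) := by
          intro x
          rw [aeval_frz]
          apply aeval_congr_deg
          intro i hi
          by_cases his : i ∈ s
          · have hij : i ≠ j := fun h => hjs (h ▸ his)
            rw [if_pos his, Function.update_of_ne hij, hwJ i (Finset.mem_filter.mpr
              ⟨Finset.mem_of_mem_erase his, hi⟩)]
            rfl
          · rw [if_neg his]
        have htcf : (fun l => (MvPolynomial.aeval w (tcf (frz s P (F k)) j l) : ℂ)) =
            fun l => MvPolynomial.aeval w (tcf (F k) j l) := by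
          apply ev4_inj
          intro x
          rw [ev4_tcf _ j hF'4, ev4_tcf _ j (hF4 k j (hJT hjJ)), hval]
        refine free_step (w := w) (hDk s) (by rw [eval_self_frz]; exact hpos) (hr s j hjJ hkj)
          hF'4 (hwJ j hjk) ?_ ?_ h
        · have := hval (w j)
          rw [Function.update_eq_self] at this
          rw [this]; exact hw0
        · have h6 := congrFun htcf 1
          have e1 : tcf (frz s P (F k)) j 1 = MvPolynomial.pderiv j (frz s P (F k)) :=
            tay_coeff_one _ j
          have e2 : tcf (F k) j 1 = MvPolynomial.pderiv j (F k) := tay_coeff_one _ j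
          simp only [e1, e2] at h6
          rw [h6]; exact hw1
  exact ph2 T.card T rfl (Finset.Subset.refl _) h1

end Pool.Agent.Lib.MP42
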