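import Pool.Agent.Lib.MP_42de19_nt.QF.Sub

/-!
Unfreezing one variable: openness of the closure in the slice gives openness in the next slice.
-/

set_option autoImplicit false

namespace Pool.Agent.Lib.MP42

open Set Topology Filter

variable {m : ℕ}

/-- The rational points near `x` whose class has many multiples can be moved. -/
theorem movable_quartic' {D : MvPolynomial (Fin m) ℚ} {i : Fin m} (hd : D.degreeOf i ≤ 4)
    {x : Fin m → ℝ} {t : ℝ}
    (hpos : ∀ τ ∈ Icc (0 : ℝ) 1,
      0 < (MvPolynomial.aeval (Function.update x i (x i + τ * (t - x i))) D : ℝ))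
    (hdisc : (MvPolynomial.aeval x (disc4 (tcf D i)) : ℝ) ≠ 0) {ε : ℝ} (hε : 0 < ε) :
    ∃ N : ℕ, ∀ᶠ x' : Fin m → ℝ in 𝓝 x, ∀ z : Fin m → ℚ,
      (∀ j, x' j = (z j : ℝ)) → MvPolynomial.eval z (gpoly D i N) ≠ 0 →
      (∃ y : ℚ, y ^ 2 = MvPolynomial.eval z D) →
      ∃ s : ℚ, |(s : ℝ) - t| < ε ∧ ∃ y : ℚ, y ^ 2 = MvPolynomial.eval (Function.update z i s) D := by
  let C : (Fin m → ℝ) → (Fin 5 → ℝ) := fun x k => MvPolynomial.aeval x (tcf D i k)
  have hC : Continuous C := continuous_pi fun k => continuous_aeval (tcf D i k)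
  obtain ⟨N, hN⟩ := slice_move (c₀ := C x) (h₀ := t - x i) (by
      intro τ hτ
      have := hpos τ hτ
      rw [← ev4_tcf D i hd] at this
      exact this) (by
      have e := disc4_map (MvPolynomial.aeval x : MvPolynomial (Fin m) ℚ →ₐ[ℚ] ℝ).toRingHom
        (tcf D i)
      have e' : disc4 (C x) = (MvPolynomial.aeval x (disc4 (tcf D i)) : ℝ) := e
      rw [e']; exact hdisc) (ε := ε / 2) (by linarith)
  refine ⟨N, ?_⟩
  have ev1 := hC.continuousAt.eventually hN
  have ev2 : ∀ᶠ x' : Fin m → ℝ in 𝓝 x, |x' i - x i| < ε / 2 := by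
    have hc : Continuous (fun x' : Fin m → ℝ => |x' i - x i|) :=
      ((continuous_apply i).sub continuous_const).abs
    exact hc.continuousAt.eventually_lt continuousAt_const
      (by simpa using (by linarith : 0 < ε / 2))
  filter_upwards [ev1, ev2] with x' h1 h2 z hz hH hy
  obtain ⟨y, hy⟩ := hy
  obtain ⟨hy0, hF⟩ := many_of_gpoly hd hH hy
  have hx' : x' = fun j => (z j : ℝ) := funext hz
  obtain ⟨h, hh1, v, hv⟩ := h1 (fun k => MvPolynomial.eval z (tcf D i k)) (by
    intro k
    simp only [C]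
    rw [hx', aeval_ratCast]) y (by rw [tcf_zero D i hd]; exact hy) hy0 hF
  refine ⟨z i + h, ?_, v, ?_⟩
  · rw [hz i] at h2
    push_cast
    calc |(z i : ℝ) + h - t| = |((h : ℝ) - (t - x i)) + ((z i : ℝ) - x i)| := by ring_nf
      _ ≤ |(h : ℝ) - (t - x i)| + |(z i : ℝ) - x i| := abs_add_le _ _
      _ < ε := by linarith
  · rw [hv, ev4_tcf_rat D i hd]

theorem ev_abs_lt {x : Fin m → ℝ} {i : Fin m} {c ρ : ℝ} (h : |x i - c| < ρ) :
    ∀ᶠ w : Fin m → ℝ in 𝓝 x, |w i - c| < ρ := by
  have hc : Continuous (fun w : Fin m → ℝ => |w i - c|) :=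
    ((continuous_apply i).sub continuous_const).abs
  exact hc.continuousAt.eventually_lt continuousAt_const h

/-- a polynomial which does not vanish identically on the slice -/
theorem frz_disc_ne {D : MvPolynomial (Fin m) ℚ} {j : Fin m} (hd : D.degreeOf j ≤ 4)
    (h : disc4 (tcf D j) ≠ 0) (P : Fin m → ℚ) : frz {j} P (disc4 (tcf D j)) ≠ 0 := by
  obtain ⟨z, hz⟩ : ∃ z, MvPolynomial.eval z (disc4 (tcf D j)) ≠ 0 := by
    by_contra hcon
    push Not at hcon
    exact h (MvPolynomial.funext fun z => by rw [hcon z, map_zero])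
  intro h0
  apply hz
  have h1 := disc_update (K := ℚ) hd z (P j)
  rw [MvPolynomial.aeval_eq_eval, MvPolynomial.aeval_eq_eval] at h1
  rw [← h1, ← eval_frz_one j P, h0, map_zero]

/-- UNFREEZING ONE VARIABLE. -/
theorem step_unfreeze {F g r h : MvPolynomial (Fin m) ℚ} {j : Fin m} {P : Fin m → ℚ}
    (hF : F = g ^ 2 * (r * h)) (hP : 0 < MvPolynomial.eval P F) (hr : r.degreeOf j = 0)
    (h0 : (fun i => (P i : ℝ)) ∈ interior {x | SqLim (frz {j} P F) x})
    (hc : h.degreeOf j ≤ 2 ∨ (h.degreeOf j ≤ 4 ∧ disc4 (tcf h j) ≠ 0 ∧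
      ∀ N, frz {j} P (gpoly h j N) ≠ 0)) :
    (fun i => (P i : ℝ)) ∈ interior {x | SqLim F x} := by
  classical
  set p : Fin m → ℝ := fun i => (P i : ℝ) with hp
  have hFp : 0 < (MvPolynomial.aeval p F : ℝ) := by
    rw [hp, aeval_ratCast]; exact_mod_cast hP
  -- the box
  obtain ⟨ρ, hρ, hbox⟩ : ∃ ρ > 0, ∀ x : Fin m → ℝ, (∀ i, |x i - p i| < ρ) →
      0 < (MvPolynomial.aeval x F : ℝ) ∧ x ∈ interior {x | SqLim (frz {j} P F) x} := by
    have h1 : ∀ᶠ w in 𝓝 p, 0 < (MvPolynomial.aeval w F : ℝ) :=
      continuousAt_const.eventually_lt (continuous_aeval F).continuousAt hFp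
    have h2 := h1.and (isOpen_interior.mem_nhds h0)
    rw [Metric.eventually_nhds_iff] at h2
    obtain ⟨ρ, hρ, h2⟩ := h2
    refine ⟨ρ, hρ, fun x hx => h2 ?_⟩
    rw [dist_pi_lt_iff hρ]
    intro i; rw [Real.dist_eq]; exact hx i
  have hFval : ∀ x : Fin m → ℝ, (MvPolynomial.aeval x F : ℝ) =
      MvPolynomial.aeval x g ^ 2 * MvPolynomial.aeval x (r * h) := by
    intro x; rw [hF, map_mul, map_pow]
  have hFvalQ : ∀ z : Fin m → ℚ, MvPolynomial.eval z F =
      MvPolynomial.eval z g ^ 2 * MvPolynomial.eval z (r * h) := by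
    intro x; rw [hF, map_mul, map_pow]
  have hposrh : ∀ x : Fin m → ℝ, 0 < (MvPolynomial.aeval x F : ℝ) →
      0 < (MvPolynomial.aeval x (r * h) : ℝ) := by
    intro x hx
    rw [hFval] at hx
    by_contra hcon
    push Not at hcon
    exact absurd hx (not_lt.mpr (mul_nonpos_of_nonneg_of_nonpos (sq_nonneg _) hcon))
  -- points of the slice
  have hslice : ∀ z : Fin m → ℚ, (∀ i, |(z i : ℝ) - p i| < ρ) → z j = P j →
      (∃ y : ℚ, y ^ 2 = MvPolynomial.eval z (frz {j} P F)) →
      MvPolynomial.eval z g ≠ 0 ∧ MvPolynomial.eval z (r * h) ≠ 0 ∧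
        ∃ y : ℚ, y ^ 2 = MvPolynomial.eval z (r * h) := by
    rintro z hz hzj ⟨y, hy⟩
    rw [eval_frz_one, ← hzj, Function.update_eq_self] at hy
    have hpos := (hbox (fun i => (z i : ℝ)) hz).1
    rw [aeval_ratCast] at hpos
    have hposQ : 0 < MvPolynomial.eval z F := by exact_mod_cast hpos
    rw [hFvalQ] at hposQ hy
    have hg : MvPolynomial.eval z g ≠ 0 := by
      intro h; rw [h] at hposQ; simp at hposQ
    refine ⟨hg, ?_, y / MvPolynomial.eval z g, ?_⟩
    · intro h; rw [h] at hposQ; simp at hposQ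
    · rw [div_pow, hy]
      field_simp
  have hback : ∀ z : Fin m → ℚ, (∃ y : ℚ, y ^ 2 = MvPolynomial.eval z (r * h)) →
      ∃ y : ℚ, y ^ 2 = MvPolynomial.eval z F := by
    rintro z ⟨y, hy⟩
    exact ⟨MvPolynomial.eval z g * y, by rw [mul_pow, hy, hFvalQ]⟩
  -- the whole box
  suffices hall : ∀ x : Fin m → ℝ, (∀ i, |x i - p i| < ρ) → SqLim F x by
    rw [mem_interior_iff_mem_nhds, Metric.mem_nhds_iff]
    refine ⟨ρ, hρ, fun x hx => ?_⟩
    rw [Metric.mem_ball, dist_pi_lt_iff hρ] at hx
    exact hall x (fun i => by have := hx i; rwa [Real.dist_eq] at this)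
  -- the base point on the slice
  have hbase : ∀ x : Fin m → ℝ, (∀ i, |x i - p i| < ρ) →
      ∀ i, |Function.update x j (p j) i - p i| < ρ := by
    intro x hx i
    by_cases hi : i = j
    · subst hi; rw [Function.update_self, sub_self, abs_zero]; exact hρ
    · rw [Function.update_of_ne hi]; exact hx i
  have hseg : ∀ x : Fin m → ℝ, (∀ i, |x i - p i| < ρ) → ∀ τ ∈ Icc (0 : ℝ) 1,
      ∀ i, |Function.update x j (p j + τ * (x j - p j)) i - p i| < ρ := by
    intro x hx τ hτ i
    by_cases hi : i = j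
    · subst hi
      rw [Function.update_self, add_sub_cancel_left, abs_mul, abs_of_nonneg hτ.1]
      calc τ * |x i - p i| ≤ 1 * |x i - p i| := mul_le_mul_of_nonneg_right hτ.2 (abs_nonneg _)
        _ < ρ := by rw [one_mul]; exact hx i
    · rw [Function.update_of_ne hi]; exact hx i
  rcases hc with hc2 | ⟨hc4, hdisc, hgp⟩
  · -- conic direction
    intro x hx ε hε
    have hd2 : (r * h).degreeOf j ≤ 2 := by
      refine (MvPolynomial.degreeOf_mul_le _ _ _).trans ?_
      rw [hr, zero_add]; exact hc2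
    obtain ⟨δ, hδ, hδε, hδρ⟩ : ∃ δ > 0, δ ≤ ε ∧ ∀ i, |x i - p i| + δ ≤ ρ := by
      have h1 : ∀ᶠ δ in 𝓝[>] (0 : ℝ), δ ≤ ε ∧ ∀ i, |x i - p i| + δ ≤ ρ := by
        refine Filter.Eventually.and ?_ (Filter.eventually_all.mpr fun i => ?_)
        · exact (Filter.eventually_of_mem (Iic_mem_nhds hε) fun _ h => h).filter_mono
            nhdsWithin_le_nhds
        · have h2 : ∀ᶠ δ in 𝓝 (0 : ℝ), |x i - p i| + δ < ρ := by
            apply ContinuousAt.eventually_lt (by fun_prop) continuousAt_const
            simpa using hx i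
          exact (h2.mono fun _ h => h.le).filter_mono nhdsWithin_le_nhds
      obtain ⟨δ, h2, h3⟩ := (h1.and self_mem_nhdsWithin).exists
      exact ⟨δ, h3, h2.1, h2.2⟩
    have hx' := (hbox _ (hbase x hx)).2
    obtain ⟨z, hz, y, hy⟩ := interior_subset hx' δ hδ
    set z' := Function.update z j (P j) with hz'
    have hz'near : ∀ i, i ≠ j → |(z' i : ℝ) - x i| < δ := by
      intro i hi
      rw [hz', Function.update_of_ne hi]
      have := hz i
      rwa [Function.update_of_ne hi] at this
    have hz'box : ∀ i, |(z' i : ℝ) - p i| < ρ := by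
      intro i
      by_cases hi : i = j
      · subst hi; rw [hz', Function.update_self]; simp only [hp, sub_self, abs_zero]; exact hρ
      · calc |(z' i : ℝ) - p i| = |((z' i : ℝ) - x i) + (x i - p i)| := by ring_nf
          _ ≤ |(z' i : ℝ) - x i| + |x i - p i| := abs_add_le _ _
          _ < ρ := by linarith [hz'near i hi, hδρ i]
    have hz'j : z' j = P j := by rw [hz', Function.update_self]
    have hy' : MvPolynomial.eval z' (frz {j} P F) = MvPolynomial.eval z (frz {j} P F) := by
      rw [eval_frz_one, eval_frz_one, hz', Function.update_idem]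
    obtain ⟨hg, hrh, hsq⟩ := hslice z' hz'box hz'j ⟨y, by rw [hy', hy]⟩
    have hend : ∀ i, |Function.update (fun i => (z' i : ℝ)) j (x j) i - p i| < ρ := by
      intro i
      by_cases hi : i = j
      · subst hi; rw [Function.update_self]; exact hx i
      · rw [Function.update_of_ne hi]; exact hz'box i
    obtain ⟨s, hs, hsq'⟩ := move_one j hd2 z' hsq (Or.inl hrh) (x j)
      (hposrh _ (hbox _ hend).1).le ε hε
    refine ⟨Function.update z' j s, fun i => ?_, hback _ hsq'⟩
    by_cases hi : i = j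
    · subst hi; rw [Function.update_self]; exact hs
    · rw [Function.update_of_ne hi]
      exact lt_of_lt_of_le (hz'near i hi) hδε
  · -- quartic direction
    have hd4 : (r * h).degreeOf j ≤ 4 := by
      refine (MvPolynomial.degreeOf_mul_le _ _ _).trans ?_
      rw [hr, zero_add]; exact hc4
    have hr0 : r ≠ 0 := by
      rintro rfl
      rw [hF] at hP
      simp at hP
    have hdisc' : disc4 (tcf (r * h) j) ≠ 0 := by
      rw [disc_mul hr]
      exact mul_ne_zero (pow_ne_zero _ hr0) hdisc
    -- the points with nonzero discriminant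
    have hgen : ∀ x : Fin m → ℝ, (∀ i, |x i - p i| < ρ) →
        (MvPolynomial.aeval (Function.update x j (p j)) (disc4 (tcf (r * h) j)) : ℝ) ≠ 0 →
        SqLim F x := by
      intro x hx hxd ε hε
      have hx'int := (hbox _ (hbase x hx)).2
      obtain ⟨N, hN⟩ := movable_quartic' hd4 (x := Function.update x j (p j)) (t := x j) (by
        intro τ hτ
        rw [Function.update_self, Function.update_idem]
        exact hposrh _ (hbox _ (hseg x hx τ hτ)).1) hxd hε
      -- neighbourhood
      have hcont : Continuous (fun w : Fin m → ℝ => Function.update w j (p j)) := by fun_prop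
      have e1 : Function.update (Function.update x j (p j)) j (p j) =
          Function.update x j (p j) := Function.update_idem ..
      have hN' := (hcont.tendsto' (Function.update x j (p j)) (Function.update x j (p j)) e1).eventually
        hN
      have hnear : ∀ᶠ w in 𝓝 (Function.update x j (p j)), ∀ i, |w i - Function.update x j (p j) i| < ε ∧
          (i ≠ j → |w i - p i| < ρ) := by
        refine Filter.eventually_all.mpr fun i => Filter.Eventually.and ?_ ?_
        · exact ev_abs_lt (by simpa using hε)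
        · by_cases hi : i = j
          · exact Filter.Eventually.of_forall fun w h => absurd hi h
          · exact (ev_abs_lt (hbase x hx i)).mono fun w hw _ => hw
      obtain ⟨z, ⟨hz1, hz2⟩, hz3, hz4⟩ := zl_of_interior hx'int _ (hN'.and hnear)
        (frz {j} P (gpoly h j N)) (hgp N)
      set z' := Function.update z j (P j) with hz'
      have hz'j : z' j = P j := by rw [hz', Function.update_self]
      have hz'box : ∀ i, |(z' i : ℝ) - p i| < ρ := by
        intro i
        by_cases hi : i = j
        · subst hi; rw [hz', Function.update_self]; simp only [hp, sub_self, abs_zero]; exact hρ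
        · rw [hz', Function.update_of_ne hi]; exact (hz2 i).2 hi
      have hy' : MvPolynomial.eval z' (frz {j} P F) = MvPolynomial.eval z (frz {j} P F) := by
        rw [eval_frz_one, eval_frz_one, hz', Function.update_idem]
      obtain ⟨hg, hrh, hsq⟩ := hslice z' hz'box hz'j (by rw [hy']; exact hz4)
      have hrz : MvPolynomial.eval z' r ≠ 0 := by
        rw [map_mul] at hrh
        exact left_ne_zero_of_mul hrh
      have hgz : MvPolynomial.eval z' (gpoly (r * h) j N) ≠ 0 := by
        apply gpoly_mul_ne hr hrz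
        rw [eval_frz_one] at hz3
        exact hz3
      obtain ⟨s, hs, hsq'⟩ := hz1 z' (by
        intro i
        by_cases hi : i = j
        · subst hi; rw [Function.update_self, hz'j]
        · rw [Function.update_of_ne hi, hz', Function.update_of_ne hi]) hgz hsq
      refine ⟨Function.update z' j s, fun i => ?_, hback _ hsq'⟩
      by_cases hi : i = j
      · subst hi; rw [Function.update_self]; exact hs
      · rw [Function.update_of_ne hi, hz', Function.update_of_ne hi]
        have := (hz2 i).1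
        rwa [Function.update_of_ne hi] at this
    -- the other points
    intro x hx
    refine SqLim.of_near fun ε hε => ?_
    have hbn : {w : Fin m → ℝ | (∀ i, |w i - p i| < ρ) ∧ ∀ i, |w i - x i| < ε} ∈ 𝓝 x := by
      have : ∀ᶠ w in 𝓝 x, (∀ i, |w i - p i| < ρ) ∧ ∀ i, |w i - x i| < ε := by
        refine Filter.Eventually.and (Filter.eventually_all.mpr fun i => ?_)
          (Filter.eventually_all.mpr fun i => ?_)
        · exact ev_abs_lt (hx i)
        · exact ev_abs_lt (by simpa using hε)
      exact this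
    obtain ⟨z, hz1, hz2⟩ := exists_rat_ne_zero (frz_disc_ne hd4 hdisc' P) hbn
    refine ⟨fun i => (z i : ℝ), hz1.2, hgen _ hz1.1 ?_⟩
    rw [← aeval_frz_one, aeval_ratCast]
    exact_mod_cast hz2

end Pool.Agent.Lib.MP42
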