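import Pool.Agent.Lib.MP_42de19_nt.QF.Ind

/-!
Blocks in at most one variable may vanish.
-/

set_option autoImplicit false

namespace Pool.Agent.Lib.MP42

open Set Topology Filter

variable {m : ℕ}

/-- a polynomial in at most one variable that has a zero where it does not vanish identically -/
theorem one_var_cases {D : MvPolynomial (Fin m) ℚ} (h : D.vars.card ≤ 1) (hD : D ≠ 0) :
    (∀ z : Fin m → ℚ, MvPolynomial.eval z D ≠ 0) ∨ ∃ (i₀ : Fin m) (E : Finset ℚ),
      D.degreeOf i₀ ≠ 0 ∧ ∀ z : Fin m → ℚ, MvPolynomial.eval z D = 0 ↔ z i₀ ∈ E := by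
  classical
  have hvars : ∀ i, i ∈ D.vars ↔ D.degreeOf i ≠ 0 := fun i =>
    MvPolynomial.mem_vars_iff_degreeOf_ne_zero
  rcases Nat.lt_or_ge D.vars.card 1 with h0 | h1
  · left
    have hvars0 : ∀ i, D.degreeOf i = 0 := by
      intro i
      by_contra hcon
      have h1 := (hvars i).mpr hcon
      have h2 : D.vars = ∅ := Finset.card_eq_zero.mp (by omega)
      rw [h2] at h1
      simp at h1
    intro z hz
    apply hD
    apply MvPolynomial.funext
    intro w
    rw [map_zero, ← hz]
    exact eval_congr_deg fun i hi => absurd (hvars0 i) hi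
  · right
    obtain ⟨i₀, hi₀⟩ := Finset.card_eq_one.mp (le_antisymm h h1)
    have hi₀' : D.degreeOf i₀ ≠ 0 := (hvars i₀).mp (by rw [hi₀]; simp)
    have hval : ∀ z : Fin m → ℚ, MvPolynomial.eval z D = (slice D 0 i₀).eval (z i₀) := by
      intro z
      rw [slice_eval]
      apply eval_congr_deg
      intro i hi
      have h2 := (hvars i).mpr hi
      rw [hi₀, Finset.mem_singleton] at h2
      subst h2
      rw [Function.update_self]
    have hs0 : slice D 0 i₀ ≠ 0 := by
      intro h0
      apply hD
      apply MvPolynomial.funext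
      intro z
      rw [hval, h0, map_zero, Polynomial.eval_zero]
    refine ⟨i₀, (slice D 0 i₀).roots.toFinset, hi₀', fun z => ?_⟩
    rw [Multiset.mem_toFinset, Polynomial.mem_roots hs0, Polynomial.IsRoot, hval]

theorem sa_closure_zero {r : ℕ} (b : Fin m → Fin r) (T : Finset (Fin m)) :
    ∀ (Z : Finset (Fin r)) (G : Fin r → MvPolynomial (Fin m) ℚ),
    (∀ a i, (G a).degreeOf i ≠ 0 → b i = a) → (∀ a i, i ∉ T → (G a).degreeOf i ≤ 2) →
    (∀ a i, (G a).degreeOf i ≤ 4) → (∀ a, Cls T (G a)) →
    (∀ a ∈ Z, (G a).vars.card ≤ 1) → ∀ A : Set (Fin m → ℚ),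
    (∀ z ∈ A, ∀ a ∉ Z, MvPolynomial.eval z (G a) ≠ 0) → (∀ z ∈ A, ∀ z', Rel G z z' → z' ∈ A) →
    SA (evR m) (closure (castSet A)) := by
  classical
  intro Z
  induction Z using Finset.induction_on with
  | empty =>
    intro G hb h2 h4 hC _ A hne hsat
    exact sa_closure_class b T.card T rfl G hb h2 h4 hC A (fun z hz a => hne z hz a (by simp))
      hsat
  | insert a Z ha ih =>
    intro G hb h2 h4 hC hZ A hne hsat
    -- the part where `G a` does not vanish
    set A₁ : Set (Fin m → ℚ) := {z | z ∈ A ∧ MvPolynomial.eval z (G a) ≠ 0} with hA₁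
    set A₀ : Set (Fin m → ℚ) := {z | z ∈ A ∧ MvPolynomial.eval z (G a) = 0} with hA₀
    have hdec : castSet A = castSet A₁ ∪ castSet A₀ := by
      ext x
      constructor
      · rintro ⟨z, hz, hx⟩
        by_cases h : MvPolynomial.eval z (G a) = 0
        · exact Or.inr ⟨z, ⟨hz, h⟩, hx⟩
        · exact Or.inl ⟨z, ⟨hz, h⟩, hx⟩
      · rintro (⟨z, hz, hx⟩ | ⟨z, hz, hx⟩)
        · exact ⟨z, hz.1, hx⟩
        · exact ⟨z, hz.1, hx⟩
    rw [hdec, closure_union]
    refine SA.union ?_ ?_
    · refine ih G hb h2 h4 hC (fun b hb => hZ b (Finset.mem_insert_of_mem hb)) A₁ ?_ ?_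
      · rintro z ⟨hz, hz0⟩ b hb
        by_cases hba : b = a
        · subst hba; exact hz0
        · exact hne z hz b (by simp [hba, hb])
      · rintro z ⟨hz, hz0⟩ z' hrel
        refine ⟨hsat z hz z' hrel, ?_⟩
        obtain ⟨l, hl, h⟩ := hrel a
        rw [h]
        exact mul_ne_zero (pow_ne_zero _ hl) hz0
    · -- the part where `G a` vanishes
      set G' : Fin r → MvPolynomial (Fin m) ℚ := Function.update G a 1 with hG'
      have hG'a : G' a = 1 := Function.update_self ..
      have hG'b : ∀ b, b ≠ a → G' b = G b := fun b hb => Function.update_of_ne hb ..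
      have key : ∀ A' : Set (Fin m → ℚ),
          (∀ z ∈ A', ∀ b, b ∉ Z → b ≠ a → MvPolynomial.eval z (G b) ≠ 0) →
          (∀ z ∈ A', ∀ z', Rel G' z z' → z' ∈ A') → SA (evR m) (closure (castSet A')) := by
        intro A' hne' hsat'
        refine ih G' ?_ ?_ ?_ ?_ ?_ A' ?_ hsat'
        · intro b' i hi
          by_cases h : b' = a
          · subst h; rw [hG'a, MvPolynomial.degreeOf_one] at hi; exact absurd rfl hi
          · rw [hG'b b' h] at hi; exact hb b' i hi
        · intro b' i hi
          by_cases h : b' = a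
          · subst h; rw [hG'a, MvPolynomial.degreeOf_one]; exact Nat.zero_le _
          · rw [hG'b b' h]; exact h2 b' i hi
        · intro b' i
          by_cases h : b' = a
          · subst h; rw [hG'a, MvPolynomial.degreeOf_one]; exact Nat.zero_le _
          · rw [hG'b b' h]; exact h4 b' i
        · intro b'
          by_cases h : b' = a
          · subst h; rw [hG'a]; exact Cls.one T
          · rw [hG'b b' h]; exact hC b'
        · intro b' hb'
          have h : b' ≠ a := by rintro rfl; exact ha hb'
          rw [hG'b b' h]; exact hZ b' (Finset.mem_insert_of_mem hb')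
        · intro z hz b' hb'
          by_cases h : b' = a
          · subst h; rw [hG'a, map_one]; exact one_ne_zero
          · rw [hG'b b' h]; exact hne' z hz b' hb' h
      by_cases hGa : G a = 0
      · refine key A₀ ?_ ?_
        · rintro z ⟨hz, -⟩ b' hb' hba
          exact hne z hz b' (by simp [hba, hb'])
        · rintro z ⟨hz, -⟩ z' hrel
          refine ⟨hsat z hz z' fun b' => ?_, by rw [hGa, map_zero]⟩
          by_cases h : b' = a
          · subst h; exact ⟨1, one_ne_zero, by rw [hGa, map_zero, map_zero]; ring⟩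
          · have := hrel b'
            rwa [hG'b b' h] at this
      rcases one_var_cases (hZ a (Finset.mem_insert_self a Z)) hGa with hnz | ⟨i₀, E, hi₀, hE⟩
      · have : castSet A₀ = ∅ := by
          rw [Set.eq_empty_iff_forall_notMem]
          rintro x ⟨z, ⟨-, hz⟩, -⟩
          exact hnz z hz
        rw [this, closure_empty]
        exact SA.empty
      · have hA₀' : castSet A₀ = ⋃ e ∈ E, castSet {z | z ∈ A ∧ z i₀ = e} := by
          ext x
          simp only [mem_iUnion]
          constructor
          · rintro ⟨z, ⟨hz, hz0⟩, hx⟩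
            exact ⟨z i₀, (hE z).mp hz0, z, ⟨hz, rfl⟩, hx⟩
          · rintro ⟨e, he, z, ⟨hz, hze⟩, hx⟩
            exact ⟨z, ⟨hz, (hE z).mpr (by rw [hze]; exact he)⟩, hx⟩
        rw [hA₀', Finset.closure_biUnion]
        refine SA.biUnion_finset E _ fun e he => ?_
        rw [closure_slice (A := A) (A' := {z | Function.update z i₀ e ∈ A}) (fun z => Iff.rfl)]
        refine SA.inter ?_ (sa_coord i₀ e)
        have hbi₀ : b i₀ = a := hb a i₀ hi₀
        have hfree : ∀ b', b' ≠ a → ∀ z : Fin m → ℚ,
            MvPolynomial.eval (Function.update z i₀ e) (G b') = MvPolynomial.eval z (G b') := by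
          intro b' hb' z
          apply eval_congr_deg
          intro i hi
          have hii : i ≠ i₀ := by
            rintro rfl
            exact hb' ((hb b' i hi).symm.trans hbi₀)
          rw [Function.update_of_ne hii]
        refine key _ ?_ ?_
        · intro z hz b' hb' hba
          rw [← hfree b' hba z]
          exact hne _ hz b' (by simp [hba, hb'])
        · intro z hz z' hrel
          refine hsat _ hz _ fun b' => ?_
          by_cases h : b' = a
          · subst h
            refine ⟨1, one_ne_zero, ?_⟩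
            rw [(hE (Function.update z i₀ e)).mpr (by rw [Function.update_self]; exact he),
              (hE (Function.update z' i₀ e)).mpr (by rw [Function.update_self]; exact he)]
            ring
          · rw [hfree b' h, hfree b' h]
            have := hrel b'
            rwa [hG'b b' h] at this

end Pool.Agent.Lib.MP42
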